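import Pool.Agent.Lib.MP_1822da_lc.TreeD

/-!
# Commuting partners: the colouring with disjoint blocks (Part 5 of BEC_C.md)
-/

namespace Pool.Agent.MP1822C

open Set MeasureTheory
open Pool.Agent.Lib.MP_1822da_lc Pool.Agent.MP1822T

universe u v w

variable {Γ : Type u} [Group Γ] {X : Type v} [MulAction Γ X] {I : Type w}

/-- the letter of the direction `(i, e)` -/
def letter (g : I → Γ) (d : I × Bool) : Γ := if d.2 then (g d.1)⁻¹ else g d.1

/-- go back over the letter `g i` if `e` -/
def bk (g : I → Γ) (i : I) (e : Bool) (x : X) : X := if e then (g i)⁻¹ • x else x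

/-- the corner of the block in which `x` has the role `(i, e₁, e₂)` -/
def cor (g : I → Γ) (p : I → I) (i : I) (e₁ e₂ : Bool) (x : X) : X := bk g i e₁ (bk g (p i) e₂ x)

/-- the base colouring -/
def bas (θ : I → Bool) (d : I × Bool) : I × Bool := (d.1, xor d.2 (θ d.1))

/-- the exchange of the two directions in the block -/
def tau [DecidableEq I] (p : I → I) : Option (I × Bool × Bool) → I × Bool → I × Bool
  | none, d => d
  | some r, d => Equiv.swap (r.1, r.2.1) (p r.1, r.2.2) d

lemma bas_inj (θ : I → Bool) : Function.Injective (bas θ) := by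
  rintro ⟨i, a⟩ ⟨j, b⟩ h
  simp only [bas, Prod.mk.injEq] at h
  obtain ⟨rfl, h2⟩ := h
  simp only [Prod.mk.injEq, true_and]
  revert h2
  cases a <;> cases b <;> cases θ i <;> simp

lemma tau_inj [DecidableEq I] (p : I → I) (o : Option (I × Bool × Bool)) :
    Function.Injective (tau p o) := by
  cases o with
  | none => exact fun a b h => h
  | some r => exact fun a b h => (Equiv.swap _ _).injective h

lemma letter_inj {g : I → Γ} (hg : Function.Injective g) (hne : ∀ i j, g i ≠ (g j)⁻¹) :
    Function.Injective (letter g) := by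
  rintro ⟨i, a⟩ ⟨j, b⟩ h
  cases a <;> cases b <;> simp only [letter, if_true, if_false, Bool.false_eq_true] at h
  · rw [hg h]
  · exact absurd h (hne i j)
  · exact absurd h.symm (hne j i)
  · rw [hg (inv_injective h)]

section Blk

variable (g : I → Γ) (p : I → I) (C : I → Set X)

open Classical in
/-- the role of a point -/
noncomputable def blk (x : X) : Option (I × Bool × Bool) :=
  if h : ∃ r : I × Bool × Bool, cor g p r.1 r.2.1 r.2.2 x ∈ C r.1 then some h.choose else none

variable {g p C}

lemma blk_eq (hU : ∀ x i e₁ e₂ j f₁ f₂, cor g p i e₁ e₂ x ∈ C i → cor g p j f₁ f₂ x ∈ C j →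
      (i, e₁, e₂) = (j, f₁, f₂)) {x : X} {i : I} {e₁ e₂ : Bool} :
    blk g p C x = some (i, e₁, e₂) ↔ cor g p i e₁ e₂ x ∈ C i := by
  constructor
  · intro h
    unfold blk at h
    split_ifs at h with h1
    have h2 := h1.choose_spec
    rw [Option.some.injEq] at h
    rw [h] at h2
    exact h2
  · intro h
    have h1 : ∃ r : I × Bool × Bool, cor g p r.1 r.2.1 r.2.2 x ∈ C r.1 := ⟨(i, e₁, e₂), h⟩
    unfold blk
    rw [dif_pos h1, Option.some.injEq]
    exact hU x _ _ _ _ _ _ h1.choose_spec h

lemma blk_none {x : X} : blk g p C x = none ↔ ∀ i e₁ e₂, cor g p i e₁ e₂ x ∉ C i := by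
  unfold blk
  split_ifs with h
  · simp only [false_iff]
    intro h2
    obtain ⟨r, hr⟩ := h
    exact h2 _ _ _ hr
  · simp only [true_iff]
    intro i e₁ e₂ h2
    exact h ⟨(i, e₁, e₂), h2⟩

end Blk

/-- **Block lemma.** -/
theorem BC_of_blocks [MeasurableSpace X] [Finite I] (g : I → Γ) (hgi : Function.Injective g)
    (hne : ∀ i j, g i ≠ (g j)⁻¹) (p : I → I) (hp : ∀ i, p i ≠ i)
    (hcom : ∀ i, g i * g (p i) = g (p i) * g i)
    (hmeas : ∀ γ : Γ, Measurable fun x : X => γ • x)
    (T : Finset Γ) (hT : ∀ γ, γ ∈ T ↔ ∃ i, γ = g i ∨ γ = (g i)⁻¹)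
    (θ : X → I → Bool) (hθ : ∀ i, FM fun x => θ x i)
    (C : I → Set X) (hC : ∀ i, MeasurableSet (C i))
    (hU : ∀ x i e₁ e₂ j f₁ f₂, cor g p i e₁ e₂ x ∈ C i → cor g p j f₁ f₂ x ∈ C j →
      (i, e₁, e₂) = (j, f₁, f₂))
    (ha : ∀ j x, θ (g j • x) j = !(θ x j) ∨ ∃ e₂, cor g p j false e₂ x ∈ C j)
    (hb : ∀ i, ∀ y ∈ C i, θ y i = θ (g (p i) • y) i ∧
      θ (g i • y) i = θ (g (p i) • g i • y) i)
    (hc : ∀ i, ∀ y ∈ C i, θ y (p i) = θ (g i • y) (p i)) : BC X T := by
  classical
  have hcom' : ∀ i (x : X), g i • g (p i) • x = g (p i) • g i • x := fun i x => by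
    rw [← mul_smul, hcom, mul_smul]
  have hcomi : ∀ i (x : X), (g i)⁻¹ • g (p i) • x = g (p i) • (g i)⁻¹ • x := fun i x => by
    rw [inv_smul_eq_iff, hcom', smul_inv_smul]
  have hcomi' : ∀ i (x : X), (g (p i))⁻¹ • g i • x = g i • (g (p i))⁻¹ • x := fun i x => by
    rw [inv_smul_eq_iff, ← hcom', smul_inv_smul]
  -- the passage along an edge
  have st1 : ∀ j e₂ (x : X), cor g p j true e₂ (g j • x) = cor g p j false e₂ x := by
    intro j e₂ x
    cases e₂
    · simp [cor, bk]
    · simp only [cor, bk, if_true, Bool.false_eq_true, if_false]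
      rw [hcomi', inv_smul_smul]
  have st2 : ∀ i e₁ (x : X), cor g p i e₁ true (g (p i) • x) = cor g p i e₁ false x := by
    intro i e₁ x
    simp [cor, bk]
  have hmc : ∀ i e₁ e₂, Measurable (cor g p i e₁ e₂ : X → X) := by
    intro i e₁ e₂
    have h0 : (cor g p i e₁ e₂ : X → X) = fun x => cor g p i e₁ e₂ x := rfl
    rw [h0]
    cases e₁ <;> cases e₂ <;> simp only [cor, bk, if_true, if_false, Bool.false_eq_true] <;>
      first
      | exact measurable_id
      | exact hmeas _
      | exact (hmeas _).comp (hmeas _)
  -- key statement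
  have key : ∀ j (x : X), bas (θ x) (tau p (blk g p C x) (j, false)) =
      bas (θ (g j • x)) (tau p (blk g p C (g j • x)) (j, true)) := by
    intro j x
    by_cases h1 : ∃ e₂, cor g p j false e₂ x ∈ C j
    · obtain ⟨e₂, h⟩ := h1
      have e1 := (blk_eq hU).2 h
      have e2 : blk g p C (g j • x) = some (j, true, e₂) := (blk_eq hU).2 (by rwa [st1])
      rw [e1, e2]
      simp only [tau, Equiv.swap_apply_left]
      suffices h3 : θ x (p j) = θ (g j • x) (p j) by simp only [bas, h3]
      cases e₂ with
      | false =>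
        have hx : x ∈ C j := by simpa [cor, bk] using h
        exact hc j x hx
      | true =>
        have hy : (g (p j))⁻¹ • x ∈ C j := by simpa [cor, bk] using h
        set y : X := (g (p j))⁻¹ • x with hyd
        have hxy : x = g (p j) • y := by rw [hyd, smul_inv_smul]
        have h4 := hc j y hy
        have h5 : θ (g (p j) • y) (p j) = !(θ y (p j)) := by
          rcases ha (p j) y with h6 | ⟨e, h6⟩
          · exact h6
          · exfalso
            have h7 := hU y j false false (p j) false e (by simpa [cor, bk] using hy) h6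
            exact hp j (congrArg Prod.fst h7).symm
        have h6 : θ (g (p j) • g j • y) (p j) = !(θ (g j • y) (p j)) := by
          rcases ha (p j) (g j • y) with h6 | ⟨e, h6⟩
          · exact h6
          · exfalso
            have h7 := hU (g j • y) j true false (p j) false e
              (by simpa [cor, bk] using hy) h6
            exact hp j (congrArg Prod.fst h7).symm
        rw [hxy, hcom', h5, h6, h4]
    · by_cases h2 : ∃ i e₁, p i = j ∧ cor g p i e₁ false x ∈ C i
      · obtain ⟨i, e₁, hij, h⟩ := h2
        subst hij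
        have e1 := (blk_eq hU).2 h
        have e2 : blk g p C (g (p i) • x) = some (i, e₁, true) := (blk_eq hU).2 (by rwa [st2])
        rw [e1, e2]
        simp only [tau, Equiv.swap_apply_right]
        suffices h3 : θ x i = θ (g (p i) • x) i by simp only [bas, h3]
        cases e₁ with
        | false =>
          have hx : x ∈ C i := by simpa [cor, bk] using h
          exact (hb i x hx).1
        | true =>
          have hy : (g i)⁻¹ • x ∈ C i := by simpa [cor, bk] using h
          have := (hb i _ hy).2
          rwa [smul_inv_smul] at this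
      · -- unchanged
        have e1 : tau p (blk g p C x) (j, false) = (j, false) := by
          cases hbx : blk g p C x with
          | none => rfl
          | some r =>
            obtain ⟨i, e₁, e₂⟩ := r
            have hm := (blk_eq hU).1 hbx
            simp only [tau]
            refine Equiv.swap_apply_of_ne_of_ne ?_ ?_
            · intro h3
              simp only [Prod.mk.injEq] at h3
              obtain ⟨rfl, rfl⟩ := h3
              exact h1 ⟨e₂, hm⟩
            · intro h3
              simp only [Prod.mk.injEq] at h3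
              obtain ⟨h4, rfl⟩ := h3
              exact h2 ⟨i, e₁, h4.symm, hm⟩
        have e2 : tau p (blk g p C (g j • x)) (j, true) = (j, true) := by
          cases hbx : blk g p C (g j • x) with
          | none => rfl
          | some r =>
            obtain ⟨i, e₁, e₂⟩ := r
            have hm := (blk_eq hU).1 hbx
            simp only [tau]
            refine Equiv.swap_apply_of_ne_of_ne ?_ ?_
            · intro h3
              simp only [Prod.mk.injEq] at h3
              obtain ⟨rfl, rfl⟩ := h3
              rw [st1] at hm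
              exact h1 ⟨e₂, hm⟩
            · intro h3
              simp only [Prod.mk.injEq] at h3
              obtain ⟨h4, rfl⟩ := h3
              subst h4
              rw [st2] at hm
              exact h2 ⟨i, e₁, rfl, hm⟩
        rw [e1, e2]
        have h3 : θ (g j • x) j = !(θ x j) := by
          rcases ha j x with h | h
          · exact h
          · exact absurd h h1
        simp only [bas, h3]
        cases θ x j <;> rfl
  -- the directions of letters
  have hli := letter_inj hgi hne
  let F : X → I × Bool → I × Bool := fun x d => bas (θ x) (tau p (blk g p C x) d)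
  let col : Γ → X → Γ := fun γ x => if h : ∃ d, letter g d = γ then letter g (F x h.choose) else γ
  have hcol : ∀ d x, col (letter g d) x = letter g (F x d) := by
    intro d x
    have h : ∃ d', letter g d' = letter g d := ⟨d, rfl⟩
    simp only [col, dif_pos h]
    rw [hli h.choose_spec]
  have hT' : ∀ γ, γ ∈ T ↔ ∃ d, letter g d = γ := by
    intro γ
    rw [hT]
    constructor
    · rintro ⟨i, rfl | rfl⟩
      · exact ⟨(i, false), rfl⟩
      · exact ⟨(i, true), rfl⟩
    · rintro ⟨⟨i, e⟩, rfl⟩
      cases e
      · exact ⟨i, Or.inl rfl⟩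
      · exact ⟨i, Or.inr rfl⟩
  have hbm : FM (blk g p C) := by
    intro o
    cases o with
    | none =>
      have : {x | blk g p C x = none} = ⋂ i : I, ⋂ e₁ : Bool, ⋂ e₂ : Bool,
          (cor g p i e₁ e₂ ⁻¹' C i)ᶜ := by
        ext x
        simp only [mem_iInter, mem_compl_iff, mem_preimage]
        exact blk_none
      rw [this]
      exact MeasurableSet.iInter fun i => MeasurableSet.iInter fun e₁ =>
        MeasurableSet.iInter fun e₂ => (hmc i e₁ e₂ (hC i)).compl
    | some r =>
      obtain ⟨i, e₁, e₂⟩ := r
      have : {x | blk g p C x = some (i, e₁, e₂)} = cor g p i e₁ e₂ ⁻¹' C i := by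
        ext x
        exact blk_eq hU
      rw [this]
      exact hmc i e₁ e₂ (hC i)
  have hFm : FM (fun x => (θ x, blk g p C x)) :=
    FM.pair (FM.pi (f := fun i x => θ x i) hθ) hbm
  refine ⟨col, ?_, ?_, ?_, ?_⟩
  · intro γ hγ
    obtain ⟨d, rfl⟩ := (hT' γ).1 hγ
    have h1 : col (letter g d) = fun x => letter g (F x d) := funext (hcol d)
    rw [h1]
    exact hFm.comp (fun q => letter g (bas q.1 (tau p q.2 d)))
  · intro γ hγ x
    obtain ⟨d, rfl⟩ := (hT' γ).1 hγ
    rw [hcol]
    exact (hT' _).2 ⟨_, rfl⟩
  · intro γ hγ x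
    obtain ⟨⟨i, e⟩, rfl⟩ := (hT' γ).1 hγ
    cases e with
    | false =>
      have h1 : (letter g (i, false))⁻¹ = letter g (i, true) := by simp [letter]
      rw [h1, hcol, hcol]
      have h2 : letter g (i, false) • x = g i • x := rfl
      rw [h2]
      exact congrArg (letter g) (key i x).symm
    | true =>
      have h1 : (letter g (i, true))⁻¹ = letter g (i, false) := by simp [letter]
      rw [h1, hcol, hcol]
      have h2 : letter g (i, true) • x = (g i)⁻¹ • x := rfl
      rw [h2]
      have h3 := key i ((g i)⁻¹ • x)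
      rw [smul_inv_smul] at h3
      exact congrArg (letter g) h3
  · intro x γ hγ δ hδ h
    obtain ⟨d, rfl⟩ := (hT' γ).1 hγ
    obtain ⟨d', rfl⟩ := (hT' δ).1 hδ
    rw [hcol, hcol] at h
    have h1 := bas_inj _ (hli h)
    rw [tau_inj p _ h1]

end Pool.Agent.MP1822C
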