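import Pool.Agent.Lib.MP_1822da_lc.TreeD

/-!
# Commuting partners: frames (Part 3 of BEC_C.md)
-/

namespace Pool.Agent.MP1822C

open Set MeasureTheory Pointwise
open Pool.Agent.Lib.MP_1822da_lc Pool.Agent.MP1822T

universe u v

variable {Γ : Type u} [Group Γ] {X : Type v} [MulAction Γ X]

/-- The points from which `U` can be reached by an element of `F ^ n`. -/
def zone (F : Set Γ) (U : Set X) (n : ℕ) : Set X := {x | ∃ γ ∈ F ^ n, γ • x ∈ U}

theorem zone_zero (F : Set Γ) (U : Set X) : zone F U 0 = U := by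
  ext x
  simp [zone]

theorem zone_of_smul {F : Set Γ} {U : Set X} {n : ℕ} {δ : Γ} (hδ : δ ∈ F) {x : X}
    (h : δ • x ∈ zone F U n) : x ∈ zone F U (n + 1) := by
  obtain ⟨γ, hγ, hx⟩ := h
  refine ⟨γ * δ, ?_, by rwa [mul_smul]⟩
  rw [pow_succ]
  exact Set.mul_mem_mul hγ hδ

theorem zone_succ {F : Set Γ} (h1 : (1 : Γ) ∈ F) (U : Set X) (n : ℕ) :
    zone F U n ⊆ zone F U (n + 1) := fun x hx => zone_of_smul h1 (by rwa [one_smul])

theorem zone_mono {F : Set Γ} (h1 : (1 : Γ) ∈ F) (U : Set X) {n m : ℕ} (h : n ≤ m) :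
    zone F U n ⊆ zone F U m := by
  induction m, h using Nat.le_induction with
  | base => exact subset_rfl
  | succ m _ ih => exact ih.trans (zone_succ h1 U m)

theorem smul_zone {F : Set Γ} (hinv : ∀ γ ∈ F, γ⁻¹ ∈ F) {U : Set X} {n : ℕ} {δ : Γ} (hδ : δ ∈ F)
    {x : X} (h : x ∈ zone F U n) : δ • x ∈ zone F U (n + 1) :=
  zone_of_smul (hinv δ hδ) (by rwa [inv_smul_smul])

theorem finite_pow {F : Set Γ} (hF : F.Finite) (n : ℕ) : (F ^ n).Finite := by
  induction n with
  | zero => simp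
  | succ n ih => rw [pow_succ]; exact ih.mul hF

theorem inv_mem_pow {F : Set Γ} (hinv : ∀ γ ∈ F, γ⁻¹ ∈ F) (n : ℕ) {γ : Γ} (hγ : γ ∈ F ^ n) :
    γ⁻¹ ∈ F ^ n := by
  induction n generalizing γ with
  | zero =>
    rw [pow_zero, Set.mem_one] at hγ ⊢
    rw [hγ, inv_one]
  | succ n ih =>
    rw [pow_succ] at hγ
    obtain ⟨a, ha, b, hb, rfl⟩ := Set.mem_mul.1 hγ
    rw [mul_inv_rev, pow_succ']
    exact Set.mul_mem_mul (hinv b hb) (ih ha)

theorem measurable_zone [MeasurableSpace X] (hmeas : ∀ γ : Γ, Measurable fun x : X => γ • x)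
    {F : Set Γ} (hF : F.Finite) {U : Set X} (hU : MeasurableSet U) (n : ℕ) :
    MeasurableSet (zone F U n) := by
  have : zone F U n = ⋃ γ ∈ F ^ n, (fun x : X => γ • x) ⁻¹' U := by
    ext x
    simp [zone]
  rw [this]
  exact MeasurableSet.biUnion (finite_pow hF n).countable fun γ _ => hmeas γ hU

/-- one step inside `V` -/
def Stp (F : Set Γ) (V : Set X) (a b : X) : Prop := b ∈ V ∧ ∃ s ∈ F, s • a = b

/-- words of length `n` inside `V` -/
def Dn (F : Set Γ) (V : Set X) : ℕ → Γ → Set X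
  | 0, γ => {_x | γ = 1}
  | n + 1, γ => ⋃ s ∈ F, {x | x ∈ Dn F V n (s⁻¹ * γ) ∧ γ • x ∈ V}

lemma Dn_sound {F : Set Γ} {V : Set X} : ∀ (n : ℕ) (γ : Γ) (x : X), x ∈ Dn F V n γ →
    Relation.ReflTransGen (Stp F V) x (γ • x)
  | 0, γ, x, h => by
    have h1 : γ = 1 := h
    rw [h1, one_smul]
  | n + 1, γ, x, h => by
    simp only [Dn, mem_iUnion, exists_prop] at h
    obtain ⟨s, hs, h1, h2⟩ := h
    refine (Dn_sound n _ x h1).tail ⟨h2, s, hs, ?_⟩
    rw [← mul_smul, mul_inv_cancel_left]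

lemma Dn_complete {F : Set Γ} {V : Set X} {x y : X}
    (h : Relation.ReflTransGen (Stp F V) x y) : ∃ γ n, y = γ • x ∧ x ∈ Dn F V n γ := by
  induction h with
  | refl => exact ⟨1, 0, (one_smul _ _).symm, rfl⟩
  | @tail b c _ hbc ih =>
    obtain ⟨γ, n, rfl, h⟩ := ih
    obtain ⟨hc, s, hs, rfl⟩ := hbc
    refine ⟨s * γ, n + 1, (mul_smul _ _ _).symm, ?_⟩
    simp only [Dn, mem_iUnion, exists_prop]
    refine ⟨s, hs, by rwa [inv_mul_cancel_left], ?_⟩
    rwa [mul_smul]

/-- **Frames.** -/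
theorem exists_frame [Countable Γ] [MeasurableSpace X] [StandardBorelSpace X]
    (hmeas : ∀ γ : Γ, Measurable fun x : X => γ • x)
    (hfree : ∀ (γ : Γ) (x : X), γ • x = x → γ = 1) (F : Set Γ) (hinv : ∀ s ∈ F, s⁻¹ ∈ F)
    (V : Set X) (hV : MeasurableSet V)
    (hfin : ∀ x ∈ V, {y | Relation.ReflTransGen (Stp F V) x y}.Finite) :
    ∃ p : X → Γ, FM p ∧ ∀ x ∈ V, ∀ s ∈ F, s • x ∈ V → p (s • x) = s * p x := by
  classical
  have hι := measurableEmbedding_embeddingReal X
  have hDm : ∀ n γ, MeasurableSet (Dn F V n γ) := by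
    intro n
    induction n with
    | zero => intro γ; exact MeasurableSet.const _
    | succ n ih =>
      intro γ
      refine MeasurableSet.biUnion (to_countable _) fun s _ => ?_
      exact (ih _).inter (hmeas γ hV)
  have hR : ∀ γ : Γ, {x : X | Relation.ReflTransGen (Stp F V) x (γ • x)} = ⋃ n, Dn F V n γ := by
    intro γ
    ext x
    simp only [mem_ofPred_eq, mem_iUnion]
    constructor
    · intro h
      obtain ⟨γ', n, h1, h2⟩ := Dn_complete h
      have : γ = γ' := smul_left_cancel_free hfree h1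
      exact ⟨n, this ▸ h2⟩
    · rintro ⟨n, h⟩
      exact Dn_sound n γ x h
  have hRm : ∀ γ : Γ, MeasurableSet {x : X | Relation.ReflTransGen (Stp F V) x (γ • x)} := by
    intro γ
    rw [hR]
    exact MeasurableSet.iUnion fun n => hDm n γ
  let Mm : Γ → Set X := fun γ => {x | Relation.ReflTransGen (Stp F V) x (γ • x) ∧
    ∀ δ : Γ, Relation.ReflTransGen (Stp F V) x (δ • x) →
      embeddingReal X (γ • x) ≤ embeddingReal X (δ • x)}
  have hMm : ∀ γ, MeasurableSet (Mm γ) := by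
    intro γ
    have : Mm γ = {x : X | Relation.ReflTransGen (Stp F V) x (γ • x)} ∩ ⋂ δ : Γ,
        ({x : X | Relation.ReflTransGen (Stp F V) x (δ • x)}ᶜ ∪
          {x : X | embeddingReal X (γ • x) ≤ embeddingReal X (δ • x)}) := by
      ext x
      simp only [Mm, mem_ofPred_eq, mem_inter_iff, mem_iInter, mem_union, mem_compl_iff]
      refine and_congr_right fun _ => forall_congr' fun δ => ?_
      tauto
    rw [this]
    exact (hRm γ).inter (MeasurableSet.iInter fun δ => (hRm δ).compl.union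
      (measurableSet_le (hι.measurable.comp (hmeas _)) (hι.measurable.comp (hmeas _))))
  have hex : ∀ x ∈ V, ∃ γ, x ∈ Mm γ := by
    intro x hx
    obtain ⟨y, hy, hmin⟩ := Set.exists_min_image _ (embeddingReal X) (hfin x hx)
      ⟨x, Relation.ReflTransGen.refl⟩
    obtain ⟨γ, n, rfl, -⟩ := Dn_complete hy
    exact ⟨γ, hy, fun δ hδ => hmin _ hδ⟩
  have huni : ∀ x γ γ', x ∈ Mm γ → x ∈ Mm γ' → γ = γ' := by
    intro x γ γ' h h'
    have h1 := hι.injective (le_antisymm (h.2 γ' h'.1) (h'.2 γ h.1))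
    exact smul_left_cancel_free hfree h1
  choose! m hm using hex
  refine ⟨fun x => if x ∈ V then (m x)⁻¹ else 1, ?_, ?_⟩
  · intro k
    have : {x | (if x ∈ V then (m x)⁻¹ else 1) = k} = (V ∩ Mm k⁻¹) ∪ (Vᶜ ∩ {_x | (1 : Γ) = k}) := by
      ext x
      by_cases hx : x ∈ V
      · simp only [mem_ofPred_eq, hx, if_true, mem_union, mem_inter_iff, true_and, mem_compl_iff,
          not_true_eq_false, false_and, or_false]
        constructor
        · intro h
          rw [← h, inv_inv]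
          exact hm x hx
        · intro h
          rw [huni x _ _ (hm x hx) h, inv_inv]
      · simp [hx]
    rw [this]
    exact (hV.inter (hMm _)).union (hV.compl.inter (MeasurableSet.const _))
  · intro x hx s hs hsx
    simp only [hx, hsx, if_true]
    have h1 : Relation.ReflTransGen (Stp F V) x (s • x) :=
      Relation.ReflTransGen.single ⟨hsx, s, hs, rfl⟩
    have h2 : Relation.ReflTransGen (Stp F V) (s • x) x :=
      Relation.ReflTransGen.single ⟨hx, s⁻¹, hinv s hs, inv_smul_smul _ _⟩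
    have h3 : s • x ∈ Mm (m x * s⁻¹) := by
      obtain ⟨h4, h5⟩ := hm x hx
      have h6 : (m x * s⁻¹) • s • x = m x • x := by rw [← mul_smul]; simp
      refine ⟨by rw [h6]; exact h2.trans h4, fun δ hδ => ?_⟩
      rw [h6]
      have h7 := h5 (δ * s) (by rw [mul_smul]; exact h1.trans hδ)
      rwa [mul_smul] at h7
    have h4 := huni _ _ _ (hm (s • x) hsx) h3
    rw [h4]
    simp

/-- The separating set with its two families of finite clusters. -/
theorem exists_sep [MeasurableSpace X] {S : Finset Γ} (hsymm : ∀ g ∈ S, g⁻¹ ∈ S)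
    (h1 : (1 : Γ) ∉ S) (hfree : ∀ (γ : Γ) (x : X), γ • x = x → γ = 1)
    (hasi : BorelAsiLe (schreierGraph S X) 1) (M : ℕ) :
    ∃ U : Set X, MeasurableSet U ∧
      (∀ x ∈ zone (insert 1 (S : Set Γ)) U M, {y | Relation.ReflTransGen
        (Stp (insert 1 (S : Set Γ)) (zone (insert 1 (S : Set Γ)) U M)) x y}.Finite) ∧
      (∀ x ∈ Uᶜ, {y | Relation.ReflTransGen (Stp (insert 1 (S : Set Γ)) Uᶜ) x y}.Finite) := by
  classical
  set F : Set Γ := insert 1 (S : Set Γ) with hF
  have hFinv : ∀ s ∈ F, s⁻¹ ∈ F := by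
    rintro s (rfl | hs)
    · left; exact inv_one
    · right; exact hsymm s hs
  have hFfin : F.Finite := S.finite_toSet.insert 1
  have hwalk : ∀ n : ℕ, ∀ γ ∈ F ^ n, ∀ a : X,
      ∃ w : (schreierGraph S X).Walk a (γ • a), w.length ≤ n := by
    intro n
    induction n with
    | zero =>
      intro γ hγ a
      rw [pow_zero, Set.mem_one] at hγ
      subst hγ
      rw [one_smul]
      exact ⟨SimpleGraph.Walk.nil, le_rfl⟩
    | succ n ih =>
      intro γ hγ a
      rw [pow_succ] at hγ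
      obtain ⟨δ, hδ, s, hs, rfl⟩ := Set.mem_mul.1 hγ
      rcases hs with rfl | hs
      · obtain ⟨w, hw⟩ := ih δ hδ a
        rw [mul_one]
        exact ⟨w, by omega⟩
      · obtain ⟨w, hw⟩ := ih δ hδ (s • a)
        rw [mul_smul]
        have hadj : (schreierGraph S X).Adj a (s • a) := adj_smul hsymm h1 hfree hs a
        exact ⟨SimpleGraph.Walk.cons hadj w, by rw [SimpleGraph.Walk.length_cons]; omega⟩
  obtain ⟨U, hUm, hU⟩ := asi_clusters hasi (2 * M + 1) (by omega)
  refine ⟨U, hUm, ?_, ?_⟩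
  · have hcl := (hU (fun a b => ∃ γ ∈ F ^ (2 * M + 1), γ • a = b) (by
      rintro a b ⟨γ, hγ, rfl⟩
      exact hwalk _ γ hγ a)).1
    intro x hx
    have hch : ∀ a : X, ∃ c : Γ, a ∈ zone F U M → c ∈ F ^ M ∧ c • a ∈ U := by
      intro a
      by_cases ha : a ∈ zone F U M
      · obtain ⟨c, h1, h2⟩ := ha
        exact ⟨c, fun _ => ⟨h1, h2⟩⟩
      · exact ⟨1, fun h => absurd h ha⟩
    choose c hc using hch
    have hstep : ∀ y, Relation.ReflTransGen (Stp F (zone F U M)) x y → y ∈ zone F U M ∧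
        Relation.ReflTransGen (fun a b => b ∈ U ∧ ∃ γ ∈ F ^ (2 * M + 1), γ • a = b)
          (c x • x) (c y • y) := by
      intro y hy
      induction hy with
      | refl => exact ⟨hx, Relation.ReflTransGen.refl⟩
      | @tail b b' _ hbb ih =>
        obtain ⟨hb', s, hs, rfl⟩ := hbb
        refine ⟨hb', ih.2.tail ⟨(hc _ hb').2, c (s • b) * s * (c b)⁻¹, ?_, ?_⟩⟩
        · have e : 2 * M + 1 = M + 1 + M := by omega
          rw [e, pow_add, pow_add, pow_one]
          exact Set.mul_mem_mul (Set.mul_mem_mul (hc _ hb').1 hs)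
            (inv_mem_pow hFinv M (hc _ ih.1).1)
        · rw [mul_smul, inv_smul_smul, mul_smul]
    have hfin2 : (⋃ γ ∈ F ^ M, (fun y : X => γ⁻¹ • y) '' {y | Relation.ReflTransGen
        (fun a b => b ∈ U ∧ ∃ γ ∈ F ^ (2 * M + 1), γ • a = b) (c x • x) y}).Finite :=
      (finite_pow hFfin M).biUnion fun γ _ => (hcl _ (hc x hx).2).image _
    refine hfin2.subset ?_
    intro y hy
    obtain ⟨h2, h3⟩ := hstep y hy
    refine mem_biUnion (hc y h2).1 ⟨c y • y, h3, ?_⟩
    simp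
  · exact (hU (fun a b => ∃ s ∈ F, s • a = b) (by
      rintro a b ⟨s, hs, rfl⟩
      obtain ⟨w, hw⟩ := hwalk 1 s (by rwa [pow_one]) a
      exact ⟨w, by omega⟩)).2

end Pool.Agent.MP1822C
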