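import Pool.Agent.Lib.MP_1822da_lc.CP.Hall

/-!
# Commuting partners: the functions on the group (L3 of BEC_C.md)
-/

namespace Pool.Agent.MP1822C

universe u v

variable {Γ : Type u} [Group Γ]

/-- parity -/
def bp (n : ℤ) : Bool := decide (n % 2 = 1)

lemma bp_succ (n : ℤ) : bp (n + 1) = !(bp n) := by
  unfold bp
  rcases Int.emod_two_eq_zero_or_one n with h | h
  · have h1 : (n + 1) % 2 = 1 := by omega
    simp [h, h1]
  · have h1 : (n + 1) % 2 = 0 := by omega
    simp [h, h1]

lemma bp_false {n : ℤ} (h : bp n = false) : n % 2 = 0 := by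
  unfold bp at h
  have := of_decide_eq_false h
  omega

lemma bp_eq {n m : ℤ} (h : bp n = bp m) : n % 2 = m % 2 := by
  unfold bp at h
  rcases Int.emod_two_eq_zero_or_one n with h1 | h1 <;>
    rcases Int.emod_two_eq_zero_or_one m with h2 | h2 <;> simp [h1, h2] at h ⊢

/-- coordinates for two commuting independent elements -/
lemma exists_coord {g k : Γ} (hc : g * k = k * g) (hi : ∀ a b : ℤ, g ^ a = k ^ b → a = 0 ∧ b = 0) :
    ∃ c : Γ → ℤ × ℤ, (∀ y, c (g * y) = ((c y).1 + 1, (c y).2)) ∧
      ∀ y, c (k * y) = ((c y).1, (c y).2 + 1) := by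
  classical
  have hC : Commute g k := hc
  let s : Setoid Γ :=
    { r := fun y y' => ∃ a b : ℤ, g ^ a * k ^ b * y = y'
      iseqv := by
        refine ⟨fun y => ⟨0, 0, by simp⟩, ?_, ?_⟩
        · rintro y _ ⟨a, b, rfl⟩
          refine ⟨-a, -b, ?_⟩
          have h1 : g ^ (-a) * k ^ (-b) = (g ^ a * k ^ b)⁻¹ := by
            rw [mul_inv_rev, zpow_neg, zpow_neg]
            exact ((hC.zpow_zpow a b).inv_inv).eq
          rw [h1, inv_mul_cancel_left]
        · rintro y _ _ ⟨a, b, rfl⟩ ⟨a', b', rfl⟩
          refine ⟨a' + a, b' + b, ?_⟩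
          rw [zpow_add, zpow_add]
          have h1 : g ^ a * k ^ b' = k ^ b' * g ^ a := (hC.zpow_zpow a b').eq
          calc g ^ a' * g ^ a * (k ^ b' * k ^ b) * y
              = g ^ a' * (g ^ a * k ^ b') * k ^ b * y := by group
            _ = g ^ a' * (k ^ b' * g ^ a) * k ^ b * y := by rw [h1]
            _ = g ^ a' * k ^ b' * (g ^ a * k ^ b * y) := by group }
  let q : Γ → Γ := fun y => (Quotient.mk s y).out
  have hq : ∀ y, ∃ a b : ℤ, g ^ a * k ^ b * q y = y := fun y => by
    have h : s.r (Quotient.mk s y).out y := Quotient.exact (Quotient.out_eq (Quotient.mk s y))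
    exact h
  choose a b hab using hq
  have huni : ∀ (u : Γ) (a b a' b' : ℤ), g ^ a * k ^ b * u = g ^ a' * k ^ b' * u →
      a = a' ∧ b = b' := by
    intro u a b a' b' h
    have h1 : g ^ a * k ^ b = g ^ a' * k ^ b' := mul_right_cancel h
    have h2 : g ^ (a - a') = k ^ (b' - b) := by
      calc g ^ (a - a') = g ^ (-a') * (g ^ a * k ^ b) * k ^ (-b) := by group
        _ = g ^ (-a') * (g ^ a' * k ^ b') * k ^ (-b) := by rw [h1]
        _ = k ^ (b' - b) := by group
    obtain ⟨h3, h4⟩ := hi _ _ h2
    constructor <;> omega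
  refine ⟨fun y => (a y, b y), ?_, ?_⟩
  · intro y
    have h1 : q (g * y) = q y := by
      have : Quotient.mk s (g * y) = Quotient.mk s y := by
        refine (Quotient.sound ?_).symm
        exact ⟨1, 0, by simp⟩
      simp only [q, this]
    have h2 := hab (g * y)
    have h3 : g * y = g ^ (a y + 1) * k ^ (b y) * q y := by
      conv_lhs => rw [← hab y]
      group
    rw [h1] at h2
    obtain ⟨h4, h5⟩ := huni _ _ _ _ _ (h2.trans h3)
    simp only [h4, h5]
  · intro y
    have h1 : q (k * y) = q y := by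
      have : Quotient.mk s (k * y) = Quotient.mk s y := by
        refine (Quotient.sound ?_).symm
        exact ⟨0, 1, by simp⟩
      simp only [q, this]
    have h2 := hab (k * y)
    have h3 : k * y = g ^ (a y) * k ^ (b y + 1) * q y := by
      conv_lhs => rw [← hab y]
      have h6 : k * g ^ (a y) = g ^ (a y) * k := (hC.symm.zpow_right (a y)).eq
      calc k * (g ^ a y * k ^ b y * q y) = (k * g ^ a y) * k ^ b y * q y := by group
        _ = g ^ a y * k * k ^ b y * q y := by rw [h6]
        _ = g ^ (a y) * k ^ (b y + 1) * q y := by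
          rw [add_comm (b y) 1, zpow_add, zpow_one, mul_assoc (g ^ a y)]
    rw [h1] at h2
    obtain ⟨h4, h5⟩ := huni _ _ _ _ _ (h2.trans h3)
    simp only [h4, h5]

/-- invariance under all powers -/
lemma inv_zpow {β : Type*} {a : Γ} {φ : Γ → β} (h : ∀ y, φ (a * y) = φ y) (n : ℤ) (y : Γ) :
    φ (a ^ n * y) = φ y := by
  have h' : ∀ y, φ (a⁻¹ * y) = φ y := fun y => by
    have := h (a⁻¹ * y)
    rw [mul_inv_cancel_left] at this
    exact this.symm
  induction n using Int.induction_on generalizing y with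
  | zero => simp
  | succ n ih => rw [zpow_add, zpow_one, mul_assoc, ih, h]
  | pred n ih => rw [sub_eq_add_neg, zpow_add, zpow_neg_one, mul_assoc, ih, h']

/-- **L3.** -/
theorem exists_data {I : Type v} [Finite I] (g : I → Γ) (p : I → I)
    (hcom : ∀ i, g i * g (p i) = g (p i) * g i)
    (hind : ∀ i, ∀ a b : ℤ, g i ^ a = g (p i) ^ b → a = 0 ∧ b = 0) :
    ∃ (R : ℤ) (A B z : I → Γ → Bool), 0 ≤ R ∧
      (∀ i y, A i (g i * y) = !(A i y)) ∧ (∀ i y, B i (g i * y) = !(B i y)) ∧
      (∀ i y, z i (g i * y) = z i y) ∧ (∀ i y, z i (g (p i) * y) = !(z i y)) ∧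
      (∀ i y, B i (g (p i) * y) = B i y) ∧
      (∀ i y, z i y = false → A i (g (p i) * y) = A i y) ∧
      ∀ i y, ∃ n : ℤ, 0 ≤ n ∧ n < R ∧ A (p i) (g i ^ n * y) = A (p i) (g i ^ (n + 1) * y) := by
  classical
  have := Fintype.ofFinite I
  have hco : ∀ i, ∃ c : Γ → ℤ × ℤ, (∀ y, c (g i * y) = ((c y).1 + 1, (c y).2)) ∧
      ∀ y, c (g (p i) * y) = ((c y).1, (c y).2 + 1) := fun i => exists_coord (hcom i) (hind i)
  choose c hc1 hc2 using hco
  have hCi : ∀ i, Commute (g i) (g (p i)) := hcom
  let B : I → Γ → Bool := fun i y => bp (c i y).1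
  let z : I → Γ → Bool := fun i y => bp (c i y).2
  have hB1 : ∀ i y, B i (g i * y) = !(B i y) := fun i y => by
    simp only [B, hc1, bp_succ]
  have hB2 : ∀ i y, B i (g (p i) * y) = B i y := fun i y => by simp only [B, hc2]
  have hz1 : ∀ i y, z i (g i * y) = z i y := fun i y => by simp only [z, hc1]
  have hz2 : ∀ i y, z i (g (p i) * y) = !(z i y) := fun i y => by
    simp only [z, hc2, bp_succ]
  have hc1z : ∀ i (n : ℤ) y, c i (g i ^ n * y) = ((c i y).1 + n, (c i y).2) := by
    intro i n
    induction n using Int.induction_on with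
    | zero => intro y; simp
    | succ n ih =>
      intro y
      rw [zpow_add, zpow_one, mul_assoc, ih, hc1]
      ext
      · simp only; ring
      · rfl
    | pred n ih =>
      intro y
      have h1 := hc1 i ((g i)⁻¹ * y)
      rw [mul_inv_cancel_left] at h1
      rw [sub_eq_add_neg, zpow_add, zpow_neg_one, mul_assoc, ih, h1]
      ext
      · simp only; ring
      · rfl
  -- the corrections
  have hr : ∀ k : I, ∃ r : Γ → Bool, (∀ y, r (g k * y) = r y) ∧
      (∀ y, z k y = false → r (g (p k) * y) = r y) ∧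
      ∀ i, p i = k → ∀ y, ∃ n : ℕ, n < 16 * (Fintype.card I + 1) ∧
        xor (r (g i ^ n * y)) (r (g i ^ (n + 1) * y)) =
          xor (B k (g i ^ n * y)) (B k (g i ^ (n + 1) * y)) := by
    intro k
    let Q := {K : Γ // (c k K).1 = 0}
    let mk : Γ → Q := fun y => ⟨g k ^ (-(c k y).1) * y, by rw [hc1z]; simp⟩
    have hmk1 : ∀ y, mk (g k * y) = mk y := by
      intro y
      apply Subtype.ext
      simp only [mk, hc1]
      rw [← mul_assoc]
      congr 1
      rw [← zpow_add_one]
      congr 1
      ring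
    have hmk2 : ∀ y, (mk y).1 = g k ^ (-(c k y).1) * y := fun y => rfl
    let J := {i : I // p i = k}
    have hJc : ∀ j : J, Commute (g j.1) (g k) := fun j => by
      have := hCi j.1
      rwa [j.2] at this
    have hmkc : ∀ (j : J) y, mk (g j.1 * (mk y).1) = mk (g j.1 * y) := by
      intro j y
      rw [hmk2, ← mul_assoc, ((hJc j).zpow_right _).eq, mul_assoc]
      exact inv_zpow hmk1 _ _
    let σ : J → Q → Q := fun j K => mk (g j.1 * K.1)
    have hσmk : ∀ j y, σ j (mk y) = mk (g j.1 * y) := fun j y => hmkc j y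
    have hmkK : ∀ K : Q, mk K.1 = K := by
      intro K
      apply Subtype.ext
      rw [hmk2, K.2]
      simp
    have hσ : ∀ j, Function.Injective (σ j) := by
      intro j K K' h
      have h1 := congrArg Subtype.val h
      simp only [σ, hmk2] at h1
      generalize -(c k (g j.1 * K.1)).1 = a at h1
      generalize -(c k (g j.1 * K'.1)).1 = a' at h1
      have h2 : g k ^ a * K.1 = g k ^ a' * K'.1 := by
        rw [← mul_assoc, ← mul_assoc, ← ((hJc j).zpow_right _).eq, ← ((hJc j).zpow_right _).eq,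
          mul_assoc, mul_assoc] at h1
        exact mul_left_cancel h1
      have h3 := congrArg (c k) h2
      rw [hc1z, hc1z, K.2, K'.2, zero_add, zero_add, Prod.mk.injEq] at h3
      rw [h3.1] at h2
      exact Subtype.ext (mul_left_cancel h2)
    have hcj1 : ∀ (j : J) y, c j.1 (g j.1 * y) = ((c j.1 y).1 + 1, (c j.1 y).2) :=
      fun j y => hc1 j.1 y
    have hcj2 : ∀ (j : J) y, (c j.1 (g k * y)).1 = (c j.1 y).1 := by
      intro j y
      have := hc2 j.1 y
      rw [j.2] at this
      rw [this]
    have hcjmk : ∀ (j : J) y, (c j.1 (mk y).1).1 = (c j.1 y).1 := by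
      intro j y
      rw [hmk2]
      exact inv_zpow (φ := fun y => (c j.1 y).1) (hcj2 j) _ _
    let pos : J → Q → ℤ := fun j K => (c j.1 K.1).1
    have hpos : ∀ j x, pos j (σ j x) = pos j x + 1 := by
      intro j x
      simp only [pos, σ]
      rw [hcjmk, hcj1]
    let cl : Q → Γ := fun K => g (p k) ^ (-((c k K.1).2 % 2)) * K.1
    let τ : Q → Bool := fun K => bp (c k K.1).2
    have hinj : ∀ x y, cl x = cl y → τ x = τ y → x = y := by
      intro x y h1 h2
      have h3 := bp_eq h2
      simp only [cl] at h1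
      rw [h3] at h1
      exact Subtype.ext (mul_left_cancel h1)
    let δ : J → Q → Bool := fun j K => xor (B k K.1) (B k (g j.1 * K.1))
    have hδmk : ∀ j y, δ j (mk y) = xor (B k y) (B k (g j.1 * y)) := by
      intro j y
      simp only [δ, hmk2]
      refine inv_zpow (φ := fun y => xor (B k y) (B k (g j.1 * y))) ?_ _ _
      intro y
      rw [← mul_assoc (g j.1), (hJc j).eq, mul_assoc, hB1, hB1]
      cases B k y <;> cases B k (g j.1 * y) <;> rfl
    obtain ⟨r, hr⟩ := exists_r σ hσ pos hpos cl τ hinj δ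
    refine ⟨fun y => r (cl (mk y)), ?_, ?_, ?_⟩
    · intro y
      simp only [hmk1]
    · intro y hy
      have h1 := bp_false hy
      have h2 : (mk (g (p k) * y)).1 = g (p k) * (mk y).1 := by
        rw [hmk2, hmk2, hc2, ← mul_assoc, ← mul_assoc]
        rw [((hCi k).zpow_left _).eq]
      have h3 : (c k (mk y).1).2 = (c k y).2 := by
        rw [hmk2, hc1z]
      have h4 : cl (mk (g (p k) * y)) = cl (mk y) := by
        simp only [cl]
        rw [h2, hc2, h3]
        have h5 : ((c k y).2 + 1) % 2 = 1 := by omega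
        simp only [h1, h5]
        simp
      show r (cl (mk (g (p k) * y))) = r (cl (mk y))
      rw [h4]
    · rintro i rfl y
      obtain ⟨n, hn, h1⟩ := hr ⟨i, rfl⟩ (mk y)
      have hit : ∀ n : ℕ, (σ ⟨i, rfl⟩)^[n] (mk y) = mk (g i ^ n * y) := by
        intro n
        induction n with
        | zero => simp
        | succ n ih =>
          rw [Function.iterate_succ_apply', ih, hσmk]
          simp only
          rw [← mul_assoc, pow_succ']
      refine ⟨n, lt_of_lt_of_le hn ?_, ?_⟩
      · have : Fintype.card J ≤ Fintype.card I := Fintype.card_subtype_le _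
        omega
      · rw [hit, hit, hδmk] at h1
        simp only at h1 ⊢
        rw [h1]
        congr 2
        rw [← mul_assoc, pow_succ']
  choose r hr1 hr2 hr3 using hr
  refine ⟨16 * (Fintype.card I + 1), fun i y => xor (B i y) (r i y), B, z, by positivity, ?_, hB1,
    hz1, hz2, hB2, ?_, ?_⟩
  · intro i y
    simp only [hB1, hr1]
    cases B i y <;> cases r i y <;> rfl
  · intro i y hy
    simp only [hB2, hr2 i y hy]
  · intro i y
    obtain ⟨n, hn, h⟩ := hr3 (p i) i rfl y
    refine ⟨n, by positivity, by exact_mod_cast hn, ?_⟩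
    have e : g i ^ ((n : ℤ) + 1) = g i ^ (n + 1) := by
      rw [← Nat.cast_succ, zpow_natCast]
    simp only [e, zpow_natCast]
    revert h
    cases r (p i) (g i ^ n * y) <;> cases r (p i) (g i ^ (n + 1) * y) <;>
      cases B (p i) (g i ^ n * y) <;> cases B (p i) (g i ^ (n + 1) * y) <;> simp

end Pool.Agent.MP1822C
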