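import Mathlib

/-!
# Commuting partners: the lines (L5 of BEC_C.md)
-/

namespace Pool.Agent.MP1822C

open Set MeasureTheory

universe u v

/-- fill the short gaps -/
def w1 (w : ℤ → Prop) (l n : ℤ) : Prop :=
  w n ∨ ∃ a b : ℤ, 1 ≤ a ∧ 1 ≤ b ∧ a + b ≤ l ∧ w (n - a) ∧ w (n + b)

/-- the hull whose boundary consists of good steps -/
def jz (w gd : ℤ → Prop) (R n : ℤ) : Prop :=
  w1 w (2 * R + 4) n ∨
  (∃ a : ℤ, 1 ≤ a ∧ a ≤ R + 1 ∧ w1 w (2 * R + 4) (n - a) ∧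
    ∀ m : ℤ, 1 ≤ m → m ≤ a - 1 → ¬ gd (n - m)) ∨
  (∃ b : ℤ, 1 ≤ b ∧ b ≤ R + 1 ∧ w1 w (2 * R + 4) (n + b) ∧
    ∀ m : ℤ, 0 ≤ m → m ≤ b - 2 → ¬ gd (n + m))

variable {w gd : ℤ → Prop} {R n : ℤ}

lemma jz_of_w1 (h : w1 w (2 * R + 4) n) : jz w gd R n := Or.inl h

lemma jz_of_w (h : w n) : jz w gd R n := Or.inl (Or.inl h)

/-- in, out: `n` is in the left extension only, and is good -/
lemma jz_left (hR : 0 ≤ R) (hwin : ∀ n, ∃ m, 0 ≤ m ∧ m < R ∧ gd (n + m)) (h : jz w gd R n)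
    (h' : ¬ jz w gd R (n + 1)) : gd n ∧ ¬ w1 w (2 * R + 4) n ∧ ¬ w1 w (2 * R + 4) (n + 1) ∧
      (∃ a : ℤ, 1 ≤ a ∧ a ≤ R + 1 ∧ w1 w (2 * R + 4) (n - a) ∧
        ∀ m : ℤ, 1 ≤ m → m ≤ a - 1 → ¬ gd (n - m)) ∧
      ¬ (∃ b : ℤ, 1 ≤ b ∧ b ≤ R + 1 ∧ w1 w (2 * R + 4) (n + b) ∧
        ∀ m : ℤ, 0 ≤ m → m ≤ b - 2 → ¬ gd (n + m)) := by
  have h1 : ¬ w1 w (2 * R + 4) (n + 1) := fun hw => h' (jz_of_w1 hw)
  have h2 : ¬ w1 w (2 * R + 4) n := by
    intro hw
    refine h' (Or.inr (Or.inl ⟨1, le_rfl, by omega, by rwa [add_sub_cancel_right], ?_⟩))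
    intro m h3 h4
    omega
  have h3 : ¬ (∃ b : ℤ, 1 ≤ b ∧ b ≤ R + 1 ∧ w1 w (2 * R + 4) (n + b) ∧
        ∀ m : ℤ, 0 ≤ m → m ≤ b - 2 → ¬ gd (n + m)) := by
    rintro ⟨b, b1, b2, b3, b4⟩
    rcases eq_or_lt_of_le b1 with rfl | b5
    · exact h1 b3
    · refine h' (Or.inr (Or.inr ⟨b - 1, by omega, by omega, ?_, ?_⟩))
      · have e : n + 1 + (b - 1) = n + b := by ring
        rwa [e]
      · intro m h5 h6
        have e : n + 1 + m = n + (m + 1) := by ring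
        rw [e]
        exact b4 (m + 1) (by omega) (by omega)
  rcases h with h | h | h
  · exact absurd h h2
  · refine ⟨?_, h2, h1, h, h3⟩
    obtain ⟨a, a1, a2, a3, a4⟩ := h
    by_contra hgd
    by_cases ha : a = R + 1
    · obtain ⟨m, m1, m2, m3⟩ := hwin (n - R)
      have e : n - R + m = n - (R - m) := by ring
      rw [e] at m3
      exact a4 (R - m) (by omega) (by omega) m3
    · refine h' (Or.inr (Or.inl ⟨a + 1, by omega, by omega, ?_, ?_⟩))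
      · have e : n + 1 - (a + 1) = n - a := by ring
        rwa [e]
      · intro m h5 h6
        have e : n + 1 - m = n - (m - 1) := by ring
        rw [e]
        rcases eq_or_lt_of_le h5 with rfl | h7
        · simpa using hgd
        · exact a4 (m - 1) (by omega) (by omega)
  · exact absurd h h3

/-- out, in -/
lemma jz_right (hR : 0 ≤ R) (hwin : ∀ n, ∃ m, 0 ≤ m ∧ m < R ∧ gd (n + m)) (h : ¬ jz w gd R n)
    (h' : jz w gd R (n + 1)) : gd n ∧ ¬ w1 w (2 * R + 4) n ∧ ¬ w1 w (2 * R + 4) (n + 1) ∧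
      (∃ b : ℤ, 1 ≤ b ∧ b ≤ R + 1 ∧ w1 w (2 * R + 4) (n + 1 + b) ∧
        ∀ m : ℤ, 0 ≤ m → m ≤ b - 2 → ¬ gd (n + 1 + m)) ∧
      ¬ (∃ a : ℤ, 1 ≤ a ∧ a ≤ R + 1 ∧ w1 w (2 * R + 4) (n + 1 - a) ∧
        ∀ m : ℤ, 1 ≤ m → m ≤ a - 1 → ¬ gd (n + 1 - m)) := by
  have h1 : ¬ w1 w (2 * R + 4) n := fun hw => h (jz_of_w1 hw)
  have h2 : ¬ w1 w (2 * R + 4) (n + 1) := by
    intro hw
    refine h (Or.inr (Or.inr ⟨1, le_rfl, by omega, hw, ?_⟩))
    intro m h3 h4
    omega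
  have h3 : ¬ (∃ a : ℤ, 1 ≤ a ∧ a ≤ R + 1 ∧ w1 w (2 * R + 4) (n + 1 - a) ∧
        ∀ m : ℤ, 1 ≤ m → m ≤ a - 1 → ¬ gd (n + 1 - m)) := by
    rintro ⟨a, a1, a2, a3, a4⟩
    rcases eq_or_lt_of_le a1 with rfl | a5
    · rw [add_sub_cancel_right] at a3
      exact h1 a3
    · refine h (Or.inr (Or.inl ⟨a - 1, by omega, by omega, ?_, ?_⟩))
      · have e : n - (a - 1) = n + 1 - a := by ring
        rwa [e]
      · intro m h5 h6
        have e : n - m = n + 1 - (m + 1) := by ring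
        rw [e]
        exact a4 (m + 1) (by omega) (by omega)
  rcases h' with h' | h' | h'
  · exact absurd h' h2
  · exact absurd h' h3
  · refine ⟨?_, h1, h2, h', h3⟩
    obtain ⟨b, b1, b2, b3, b4⟩ := h'
    by_contra hgd
    by_cases hb : b = R + 1
    · obtain ⟨m, m1, m2, m3⟩ := hwin (n + 1)
      exact b4 m m1 (by omega) m3
    · refine h (Or.inr (Or.inr ⟨b + 1, by omega, by omega, ?_, ?_⟩))
      · have e : n + (b + 1) = n + 1 + b := by ring
        rwa [e]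
      · intro m h5 h6
        rcases eq_or_lt_of_le h5 with rfl | h7
        · simpa using hgd
        · have e : n + m = n + 1 + (m - 1) := by ring
          rw [e]
          exact b4 (m - 1) (by omega) (by omega)

/-- exactly one of `n`, `n + 1` is in the hull -/
def trz (w gd : ℤ → Prop) (R n : ℤ) : Prop := ¬ (jz w gd R n ↔ jz w gd R (n + 1))

lemma trz_good (hR : 0 ≤ R) (hwin : ∀ n, ∃ m, 0 ≤ m ∧ m < R ∧ gd (n + m)) (h : trz w gd R n) :
    gd n ∧ ¬ w n ∧ ¬ w (n + 1) := by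
  unfold trz at h
  by_cases h1 : jz w gd R n
  · have h2 : ¬ jz w gd R (n + 1) := fun h2 => h (iff_of_true h1 h2)
    obtain ⟨a, b, c, -⟩ := jz_left hR hwin h1 h2
    exact ⟨a, fun h => b (Or.inl h), fun h => c (Or.inl h)⟩
  · have h2 : jz w gd R (n + 1) := by
      by_contra h2
      exact h (iff_of_false h1 h2)
    obtain ⟨a, b, c, -⟩ := jz_right hR hwin h1 h2
    exact ⟨a, fun h => b (Or.inl h), fun h => c (Or.inl h)⟩

/-- a filled point on the left of a point which is not filled: an original point between them -/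
lemma w1_left {l k a : ℤ} (ha : 1 ≤ a) (h : w1 w l (k - a)) (hk : ¬ w1 w l k) :
    ∃ c, 1 ≤ c ∧ c ≤ a ∧ w (k - c) := by
  rcases h with h | ⟨a1, b1, h1, h2, h3, h4, h5⟩
  · exact ⟨a, ha, le_rfl, h⟩
  · by_cases hb : b1 < a
    · refine ⟨a - b1, by omega, by omega, ?_⟩
      have e : k - (a - b1) = k - a + b1 := by ring
      rwa [e]
    · exfalso
      apply hk
      by_cases hb2 : b1 = a
      · left
        have e : k - a + b1 = k := by rw [hb2]; ring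
        rwa [e] at h5
      · right
        refine ⟨a + a1, b1 - a, by omega, by omega, by omega, ?_, ?_⟩
        · have e : k - (a + a1) = k - a - a1 := by ring
          rwa [e]
        · have e : k + (b1 - a) = k - a + b1 := by ring
          rwa [e]

lemma w1_right {l k a : ℤ} (ha : 1 ≤ a) (h : w1 w l (k + a)) (hk : ¬ w1 w l k) :
    ∃ c, 1 ≤ c ∧ c ≤ a ∧ w (k + c) := by
  rcases h with h | ⟨a1, b1, h1, h2, h3, h4, h5⟩
  · exact ⟨a, ha, le_rfl, h⟩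
  · by_cases hb : a1 < a
    · refine ⟨a - a1, by omega, by omega, ?_⟩
      have e : k + (a - a1) = k + a - a1 := by ring
      rwa [e]
    · exfalso
      apply hk
      by_cases hb2 : a1 = a
      · left
        have e : k + a - a1 = k := by rw [hb2]; ring
        rwa [e] at h4
      · right
        refine ⟨a1 - a, a + b1, by omega, by omega, by omega, ?_, ?_⟩
        · have e : k - (a1 - a) = k + a - a1 := by ring
          rwa [e]
        · have e : k + (a + b1) = k + a + b1 := by ring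
          rwa [e]

lemma trz_two (hR : 0 ≤ R) (hwin : ∀ n, ∃ m, 0 ≤ m ∧ m < R ∧ gd (n + m)) (h : trz w gd R n) :
    ¬ trz w gd R (n + 1) := by
  intro h'
  unfold trz at h h'
  by_cases h1 : jz w gd R n
  · have h2 : ¬ jz w gd R (n + 1) := fun h2 => h (iff_of_true h1 h2)
    have h3 : jz w gd R (n + 1 + 1) := by
      by_contra h3
      exact h' (iff_of_false h2 h3)
    obtain ⟨-, -, c1, ⟨a, a1, a2, a3, -⟩, -⟩ := jz_left hR hwin h1 h2
    obtain ⟨-, -, -, ⟨b, b1, b2, b3, -⟩, -⟩ := jz_right hR hwin h2 h3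
    have e1 : n - a = n + 1 - (a + 1) := by ring
    have e2 : n + 1 + 1 + b = n + 1 + (b + 1) := by ring
    rw [e1] at a3
    rw [e2] at b3
    obtain ⟨c, c2, c3, c4⟩ := w1_left (by omega) a3 c1
    obtain ⟨d, d2, d3, d4⟩ := w1_right (by omega) b3 c1
    exact c1 (Or.inr ⟨c, d, c2, d2, by omega, c4, d4⟩)
  · have h2 : jz w gd R (n + 1) := by
      by_contra h2
      exact h (iff_of_false h1 h2)
    have h3 : ¬ jz w gd R (n + 1 + 1) := fun h3 => h' (iff_of_true h2 h3)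
    obtain ⟨-, -, -, a, -⟩ := jz_left hR hwin h2 h3
    obtain ⟨-, -, -, -, b⟩ := jz_right hR hwin h1 h2
    exact b a

lemma w1_near {l k : ℤ} (hl : 1 ≤ l) (h : w1 w l k) : ∃ c, 0 ≤ c ∧ c ≤ l - 1 ∧ w (k - c) := by
  rcases h with h | ⟨a1, b1, h1, h2, h3, h4, h5⟩
  · exact ⟨0, le_rfl, by omega, by simpa using h⟩
  · exact ⟨a1, by omega, by omega, h4⟩

lemma jz_near (hR : 0 ≤ R) (h : jz w gd R n) : ∃ m, -(3 * R + 4) ≤ m ∧ m ≤ 3 * R + 4 ∧ w (n + m) := by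
  rcases h with h | ⟨a, a1, a2, a3, -⟩ | ⟨b, b1, b2, b3, -⟩
  · obtain ⟨c, h1, h2, h3⟩ := w1_near (by omega) h
    refine ⟨-c, by omega, by omega, ?_⟩
    have e : n + -c = n - c := by ring
    rwa [e]
  · obtain ⟨c, h1, h2, h3⟩ := w1_near (by omega) a3
    refine ⟨-(a + c), by omega, by omega, ?_⟩
    have e : n + -(a + c) = n - a - c := by ring
    rwa [e]
  · obtain ⟨c, h1, h2, h3⟩ := w1_near (by omega) b3
    refine ⟨b - c, by omega, by omega, ?_⟩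
    have e : n + (b - c) = n + b - c := by ring
    rwa [e]

lemma w1_mono {w w' : ℤ → Prop} {l k k' : ℤ} (hl : 1 ≤ l)
    (hw : ∀ m, -(l - 1) ≤ m → m ≤ l - 1 → (w (k + m) → w' (k' + m))) (h : w1 w l k) :
    w1 w' l k' := by
  rcases h with h | ⟨a, b, h1, h2, h3, h4, h5⟩
  · left
    simpa using hw 0 (by omega) (by omega) (by simpa using h)
  · refine Or.inr ⟨a, b, h1, h2, h3, ?_, hw b (by omega) (by omega) h5⟩
    have h6 := hw (-a) (by omega) (by omega)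
    rw [← sub_eq_add_neg, ← sub_eq_add_neg] at h6
    exact h6 h4

lemma jz_mono {w w' gd gd' : ℤ → Prop} {R n n' : ℤ} (hR : 0 ≤ R)
    (hw : ∀ m, -(3 * R + 4) ≤ m → m ≤ 3 * R + 4 → w (n + m) → w' (n' + m))
    (hg : ∀ m, -(3 * R + 4) ≤ m → m ≤ 3 * R + 4 → gd' (n' + m) → gd (n + m))
    (h : jz w gd R n) : jz w' gd' R n' := by
  have h1 : ∀ j, -(R + 1) ≤ j → j ≤ R + 1 → w1 w (2 * R + 4) (n + j) →
      w1 w' (2 * R + 4) (n' + j) := by
    intro j h1 h2 h3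
    refine w1_mono (by omega) ?_ h3
    intro m h4 h5 h6
    rw [add_assoc] at h6 ⊢
    exact hw _ (by omega) (by omega) h6
  rcases h with h | ⟨a, a1, a2, a3, a4⟩ | ⟨b, b1, b2, b3, b4⟩
  · left
    simpa using h1 0 (by omega) (by omega) (by simpa using h)
  · right; left
    refine ⟨a, a1, a2, ?_, ?_⟩
    · rw [sub_eq_add_neg] at a3 ⊢
      exact h1 (-a) (by omega) (by omega) a3
    · intro m m1 m2 m3
      refine a4 m m1 m2 ?_
      rw [sub_eq_add_neg] at m3 ⊢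
      exact hg (-m) (by omega) (by omega) m3
  · right; right
    refine ⟨b, b1, b2, h1 b (by omega) (by omega) b3, ?_⟩
    intro m m1 m2 m3
    exact b4 m m1 m2 (hg m (by omega) (by omega) m3)

lemma jz_congr {w w' gd gd' : ℤ → Prop} {R n n' : ℤ} (hR : 0 ≤ R)
    (hw : ∀ m, -(3 * R + 4) ≤ m → m ≤ 3 * R + 4 → (w (n + m) ↔ w' (n' + m)))
    (hg : ∀ m, -(3 * R + 4) ≤ m → m ≤ 3 * R + 4 → (gd (n + m) ↔ gd' (n' + m))) :
    jz w gd R n ↔ jz w' gd' R n' :=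
  ⟨jz_mono hR (fun m a b => (hw m a b).1) (fun m a b => (hg m a b).2),
    jz_mono hR (fun m a b => (hw m a b).2) (fun m a b => (hg m a b).1)⟩

section Act

variable {Γ : Type u} [Group Γ] {X : Type v} [MulAction Γ X]

/-- the hull on the lines of `g` -/
def JJ (g : Γ) (W G : Set X) (R : ℤ) : Set X :=
  {x | jz (fun n => g ^ n • x ∈ W) (fun n => g ^ n • x ∈ G) R 0}

lemma mem_JJ_zpow {g : Γ} {W G : Set X} {R : ℤ} (hR : 0 ≤ R) (x : X) (k : ℤ) :
    g ^ k • x ∈ JJ g W G R ↔ jz (fun n => g ^ n • x ∈ W) (fun n => g ^ n • x ∈ G) R k := by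
  change jz (fun n => g ^ n • g ^ k • x ∈ W) (fun n => g ^ n • g ^ k • x ∈ G) R 0 ↔ _
  refine jz_congr hR (fun m _ _ => ?_) (fun m _ _ => ?_)
  · simp only [zero_add]
    rw [← mul_smul, ← zpow_add, add_comm]
  · simp only [zero_add]
    rw [← mul_smul, ← zpow_add, add_comm]

lemma mem_JJ_smul {g : Γ} {W G : Set X} {R : ℤ} (hR : 0 ≤ R) (x : X) :
    g • x ∈ JJ g W G R ↔ jz (fun n => g ^ n • x ∈ W) (fun n => g ^ n • x ∈ G) R 1 := by
  rw [← mem_JJ_zpow hR, zpow_one]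

lemma mem_JJ {g : Γ} {W G : Set X} {R : ℤ} (x : X) :
    x ∈ JJ g W G R ↔ jz (fun n => g ^ n • x ∈ W) (fun n => g ^ n • x ∈ G) R 0 := Iff.rfl

lemma subset_JJ {g : Γ} {W G : Set X} {R : ℤ} : W ⊆ JJ g W G R := by
  intro x hx
  change jz (fun n : ℤ => g ^ n • x ∈ W) (fun n : ℤ => g ^ n • x ∈ G) R 0
  refine jz_of_w ?_
  simpa using hx

lemma JJ_near {g : Γ} {W G : Set X} {R : ℤ} (hR : 0 ≤ R) {x : X} (h : x ∈ JJ g W G R) :
    ∃ m : ℤ, -(3 * R + 4) ≤ m ∧ m ≤ 3 * R + 4 ∧ g ^ m • x ∈ W := by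
  obtain ⟨m, h1, h2, h3⟩ := jz_near hR ((mem_JJ x).1 h)
  rw [zero_add] at h3
  exact ⟨m, h1, h2, h3⟩

/-- the windows -/
def Win (g : Γ) (G : Set X) (R : ℤ) : Prop := ∀ x : X, ∃ m : ℤ, 0 ≤ m ∧ m < R ∧ g ^ m • x ∈ G

lemma Win.line {g : Γ} {G : Set X} {R : ℤ} (h : Win g G R) (x : X) :
    ∀ n : ℤ, ∃ m, 0 ≤ m ∧ m < R ∧ (fun n : ℤ => g ^ n • x ∈ G) (n + m) := by
  intro n
  obtain ⟨m, h1, h2, h3⟩ := h (g ^ n • x)
  refine ⟨m, h1, h2, ?_⟩
  show g ^ (n + m) • x ∈ G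
  rw [add_comm, zpow_add, mul_smul]
  exact h3

lemma JJ_good {g : Γ} {W G : Set X} {R : ℤ} (hR : 0 ≤ R) (hwin : Win g G R) {x : X}
    (h : ¬ (x ∈ JJ g W G R ↔ g • x ∈ JJ g W G R)) : x ∈ G ∧ x ∉ W ∧ g • x ∉ W := by
  rw [mem_JJ, mem_JJ_smul hR] at h
  have h1 : trz (fun n : ℤ => g ^ n • x ∈ W) (fun n : ℤ => g ^ n • x ∈ G) R 0 := by
    unfold trz
    rwa [zero_add]
  have h2 := trz_good hR (hwin.line x) h1
  simpa using h2

lemma JJ_two {g : Γ} {W G : Set X} {R : ℤ} (hR : 0 ≤ R) (hwin : Win g G R) {x : X}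
    (h : ¬ (x ∈ JJ g W G R ↔ g • x ∈ JJ g W G R)) :
    g • x ∈ JJ g W G R ↔ g • g • x ∈ JJ g W G R := by
  rw [mem_JJ, mem_JJ_smul hR] at h
  have h1 : trz (fun n : ℤ => g ^ n • x ∈ W) (fun n : ℤ => g ^ n • x ∈ G) R 0 := by
    unfold trz
    rwa [zero_add]
  have h2 := trz_two hR (hwin.line x) h1
  unfold trz at h2
  rw [not_not, zero_add] at h2
  rw [mem_JJ_smul hR]
  have e : g • g • x = g ^ (2 : ℤ) • x := by
    rw [← mul_smul]
    congr 1
    exact (zpow_two g).symm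
  rw [e, mem_JJ_zpow hR]
  exact h2

lemma JJ_congr {g : Γ} {W G : Set X} {R : ℤ} (hR : 0 ≤ R) {x y : X}
    (hw : ∀ m : ℤ, -(3 * R + 4) ≤ m → m ≤ 3 * R + 4 → (g ^ m • x ∈ W ↔ g ^ m • y ∈ W))
    (hg : ∀ m : ℤ, -(3 * R + 4) ≤ m → m ≤ 3 * R + 4 → (g ^ m • x ∈ G ↔ g ^ m • y ∈ G)) :
    x ∈ JJ g W G R ↔ y ∈ JJ g W G R := by
  rw [mem_JJ, mem_JJ]
  refine jz_congr hR (fun m a b => ?_) (fun m a b => ?_)
  · simpa only [zero_add] using hw m a b
  · simpa only [zero_add] using hg m a b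

lemma measurable_JJ [MeasurableSpace X] (hmeas : ∀ γ : Γ, Measurable fun x : X => γ • x) {g : Γ}
    {W G : Set X} (hW : MeasurableSet W) (hG : MeasurableSet G) (R : ℤ) :
    MeasurableSet (JJ g W G R) := by
  have hWn : ∀ n : ℤ, Measurable fun x : X => (g ^ n • x ∈ W) := fun n =>
    measurableSet_setOfPred.1 (hmeas (g ^ n) hW)
  have hGn : ∀ n : ℤ, Measurable fun x : X => (g ^ n • x ∈ G) := fun n =>
    measurableSet_setOfPred.1 (hmeas (g ^ n) hG)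
  have hw1 : ∀ n : ℤ, Measurable fun x : X => w1 (fun n => g ^ n • x ∈ W) (2 * R + 4) n := by
    intro n
    unfold w1
    refine (hWn n).or (Measurable.exists fun a => Measurable.exists fun b => ?_)
    exact measurable_const.and (measurable_const.and (measurable_const.and
      ((hWn _).and (hWn _))))
  refine measurableSet_setOfPred.2 ?_
  unfold jz
  refine (hw1 0).or (Measurable.or ?_ ?_)
  · refine Measurable.exists fun a => ?_
    refine measurable_const.and (measurable_const.and ((hw1 _).and ?_))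
    exact Measurable.forall fun m => measurable_const.imp (measurable_const.imp (hGn _).not)
  · refine Measurable.exists fun b => ?_
    refine measurable_const.and (measurable_const.and ((hw1 _).and ?_))
    exact Measurable.forall fun m => measurable_const.imp (measurable_const.imp (hGn _).not)

end Act

end Pool.Agent.MP1822C
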