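import Pool.Agent.Lib.MP_1822da_lc.CP.Block
import Pool.Agent.Lib.MP_1822da_lc.CP.Frame
import Pool.Agent.Lib.MP_1822da_lc.CP.Line
import Pool.Agent.Lib.MP_1822da_lc.CP.Grp

/-!
# Commuting partners: the colouring (Parts 3 to 5 of BEC_C.md)
-/

namespace Pool.Agent.MP1822C

open Set MeasureTheory Pointwise
open Pool.Agent.Lib.MP_1822da_lc Pool.Agent.MP1822T

universe u v w

variable {Γ : Type u} [Group Γ] {X : Type v} [MulAction Γ X]

lemma pow_zone {F : Set Γ} (hinv : ∀ γ ∈ F, γ⁻¹ ∈ F) {U : Set X} {s : Γ} (hs : s ∈ F) {a : ℕ}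
    {x : X} (hx : x ∈ zone F U a) (n : ℕ) : s ^ n • x ∈ zone F U (a + n) := by
  induction n with
  | zero => simpa using hx
  | succ n ih =>
    rw [pow_succ', mul_smul, ← add_assoc]
    exact smul_zone hinv hs ih

lemma zpow_zone {F : Set Γ} (hinv : ∀ γ ∈ F, γ⁻¹ ∈ F) {U : Set X} {s : Γ} (hs : s ∈ F) {a : ℕ}
    {x : X} (hx : x ∈ zone F U a) (n : ℤ) : s ^ n • x ∈ zone F U (a + n.natAbs) := by
  obtain ⟨k, rfl | rfl⟩ := n.eq_nat_or_neg
  · rw [zpow_natCast, Int.natAbs_natCast]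
    exact pow_zone hinv hs hx _
  · rw [zpow_neg, zpow_natCast, ← inv_pow, Int.natAbs_neg, Int.natAbs_natCast]
    exact pow_zone hinv (hinv s hs) hx _

lemma pow_frame {F : Set Γ} (h1 : (1 : Γ) ∈ F) (hinv : ∀ γ ∈ F, γ⁻¹ ∈ F) {U : Set X} {M : ℕ}
    {P : X → Γ} (hP : ∀ x ∈ zone F U M, ∀ s ∈ F, s • x ∈ zone F U M → P (s • x) = s * P x)
    {s : Γ} (hs : s ∈ F) {a : ℕ} {x : X} (hx : x ∈ zone F U a) (n : ℕ) (hn : a + n ≤ M) :
    P (s ^ n • x) = s ^ n * P x := by
  induction n with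
  | zero => simp
  | succ n ih =>
    have h2 := pow_zone hinv hs hx n
    rw [pow_succ', mul_smul, mul_assoc, ← ih (by omega)]
    exact hP _ (zone_mono h1 U (by omega) h2) s hs (zone_mono h1 U (by omega)
      (smul_zone hinv hs h2))

lemma zpow_frame {F : Set Γ} (h1 : (1 : Γ) ∈ F) (hinv : ∀ γ ∈ F, γ⁻¹ ∈ F) {U : Set X} {M : ℕ}
    {P : X → Γ} (hP : ∀ x ∈ zone F U M, ∀ s ∈ F, s • x ∈ zone F U M → P (s • x) = s * P x)
    {s : Γ} (hs : s ∈ F) {a : ℕ} {x : X} (hx : x ∈ zone F U a) (n : ℤ) (hn : a + n.natAbs ≤ M) :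
    P (s ^ n • x) = s ^ n * P x := by
  rcases Int.natAbs_eq n with h | h
  · rw [h, zpow_natCast]
    exact pow_frame h1 hinv hP hs hx _ hn
  · rw [h, zpow_neg, zpow_natCast, ← inv_pow]
    exact pow_frame h1 hinv hP (hinv s hs) hx _ hn

/-- **Commuting partners.** -/
theorem BC_commuting [Countable Γ] [MeasurableSpace X] [StandardBorelSpace X]
    (hmeas : ∀ γ : Γ, Measurable fun x : X => γ • x)
    (hfree : ∀ (γ : Γ) (x : X), γ • x = x → γ = 1) {S : Finset Γ} (hsymm : ∀ s ∈ S, s⁻¹ ∈ S)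
    (hS1 : (1 : Γ) ∉ S) (hasi : BorelAsiLe (schreierGraph S X) 1)
    {I : Type w} [Finite I] (g : I → Γ) (hgS : ∀ i, g i ∈ S) (hgi : Function.Injective g)
    (hne : ∀ i j, g i ≠ (g j)⁻¹) (p : I → I) (hp : ∀ i, p i ≠ i) (hppp : ∀ i, p (p (p i)) = p i)
    (hcom : ∀ i, g i * g (p i) = g (p i) * g i)
    (hind : ∀ i, ∀ a b : ℤ, g i ^ a = g (p i) ^ b → a = 0 ∧ b = 0)
    (T : Finset Γ) (hT : ∀ γ, γ ∈ T ↔ ∃ i, γ = g i ∨ γ = (g i)⁻¹) : BC X T := by
  classical
  obtain ⟨R, A, B, z, hR, hA1, hB1, hz1, hz2, hB2, hA2, hG4⟩ := exists_data g p hcom hind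
  obtain ⟨rk, N, hrk, hrkN, hrkp⟩ := exists_rank p hppp
  obtain ⟨D, hD⟩ : ∃ D : ℕ, (D : ℤ) = 3 * R + 4 := ⟨(3 * R + 4).toNat, by
    rw [Int.toNat_of_nonneg (by omega)]⟩
  set F : Set Γ := insert 1 (S : Set Γ) with hFdef
  have hF1 : (1 : Γ) ∈ F := Or.inl rfl
  have hFinv : ∀ s ∈ F, s⁻¹ ∈ F := by
    rintro s (rfl | hs)
    · left; exact inv_one
    · right; exact hsymm s hs
  have hFfin : F.Finite := S.finite_toSet.insert 1
  have hgF : ∀ i, g i ∈ F := fun i => Or.inr (hgS i)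
  set M : ℕ := (D + 5) * (N + 2) with hM
  let L : I → ℕ := fun i => (D + 5) * (rk i + 1)
  have hL0 : ∀ i, D + 5 ≤ L i := fun i => Nat.le_mul_of_pos_right _ (Nat.succ_pos _)
  have hLM : ∀ i, L i + 2 * D + 10 ≤ M := fun i => by
    have h1 : (D + 5) * (rk i + 1 + 2) ≤ (D + 5) * (N + 2) :=
      Nat.mul_le_mul_left _ (by have := hrkN i; omega)
    have h2 : (D + 5) * (rk i + 1 + 2) = (D + 5) * (rk i + 1) + (2 * D + 10) := by ring
    simp only [L]
    omega
  have hLL : ∀ i j, rk i < rk j → L i + D + 5 ≤ L j := fun i j hij => by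
    have h1 : (D + 5) * (rk i + 1 + 1) ≤ (D + 5) * (rk j + 1) :=
      Nat.mul_le_mul_left _ (by omega)
    have h2 : (D + 5) * (rk i + 1 + 1) = (D + 5) * (rk i + 1) + (D + 5) := by ring
    simp only [L]
    omega
  obtain ⟨U, hUm, hUfin, hUcfin⟩ := exists_sep hsymm hS1 hfree hasi M
  rw [← hFdef] at hUfin hUcfin
  let V : ℕ → Set X := zone F U
  have hVmeas : ∀ n, MeasurableSet (V n) := measurable_zone hmeas hFfin hUm
  have hV0 : V 0 = U := zone_zero F U
  have hVmono : ∀ {n m : ℕ}, n ≤ m → V n ⊆ V m := fun h => zone_mono hF1 U h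
  have hVs : ∀ {n : ℕ} {s : Γ}, s ∈ F → ∀ {x : X}, x ∈ V n → s • x ∈ V (n + 1) :=
    fun hs _ hx => smul_zone hFinv hs hx
  have hVs' : ∀ {n : ℕ} {s : Γ}, s ∈ F → ∀ {x : X}, s • x ∈ V n → x ∈ V (n + 1) :=
    fun hs _ hx => zone_of_smul hs hx
  obtain ⟨P, hPm, hP⟩ := exists_frame hmeas hfree F hFinv (V M) (hVmeas M) hUfin
  obtain ⟨O, hOm, hO⟩ := exists_frame hmeas hfree F hFinv Uᶜ hUm.compl hUcfin
  have hPs : ∀ {s : Γ}, s ∈ F → ∀ {x : X} {n : ℕ}, x ∈ V n → n + 1 ≤ M → P (s • x) = s * P x :=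
    fun hs _ _ hx hn => hP _ (hVmono (by omega) hx) _ hs (hVmono hn (hVs hs hx))
  have hPz : ∀ i (x : X) (n : ℕ) (m : ℤ), x ∈ V n → n + m.natAbs ≤ M →
      P (g i ^ m • x) = g i ^ m * P x := fun i x n m hx hn => zpow_frame hF1 hFinv hP (hgF i) hx m hn
  have hcx : ∀ i (x : X), g i • g (p i) • x = g (p i) • g i • x := fun i x => by
    rw [← mul_smul, hcom, mul_smul]
  have hcz : ∀ i (m : ℤ) (x : X), g i ^ m • g (p i) • x = g (p i) • g i ^ m • x := fun i m x => by
    rw [← mul_smul, ← mul_smul, ((show Commute (g i) (g (p i)) from hcom i).zpow_left m).eq]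
  have hzz : ∀ i (m : ℤ) y, z i (g i ^ m * y) = z i y := fun i m y => inv_zpow (hz1 i) m y
  -- the sets
  let W : I → Set X := fun i => {x | x ∈ V (L i) ∨ (z i (P x) = false ∧ g (p i) • x ∈ V (L i)) ∨
    (z i (P x) = true ∧ (g (p i))⁻¹ • x ∈ V (L i))}
  let Gd : I → Set X := fun i => {x | x ∉ V (M - 1) ∨ A (p i) (P x) = A (p i) (P (g i • x))}
  let J : I → Set X := fun i => JJ (g i) (W i) (Gd i) R
  have hWsub : ∀ i, W i ⊆ V (L i + 1) := by
    rintro i x (h | ⟨-, h⟩ | ⟨-, h⟩)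
    · exact hVmono (by omega) h
    · exact hVs' (hgF _) h
    · exact hVs' (hFinv _ (hgF _)) h
  have hVW : ∀ i, V (L i) ⊆ W i := fun i x hx => Or.inl hx
  have hWpair : ∀ i (x : X), x ∈ V (M - 1) → z i (P x) = false →
      (g (p i) • x ∈ W i ↔ x ∈ W i) := by
    intro i x hx hz
    have h1 : P (g (p i) • x) = g (p i) * P x := hPs (hgF _) hx (by have := hLM i; omega)
    have h2 : z i (P (g (p i) • x)) = true := by rw [h1, hz2, hz]; rfl
    simp only [W, mem_ofPred_eq, h2, hz, inv_smul_smul, reduceCtorEq, false_and, true_and,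
      false_or, or_false]
    exact or_comm
  have hGpair : ∀ i (x : X), x ∈ V (M - 2) → (g (p i) • x ∈ Gd i ↔ x ∈ Gd i) := by
    intro i x hx
    have hM2 := hLM i
    have hx1 : x ∈ V (M - 1) := hVmono (by omega) hx
    have hx2 : g (p i) • x ∈ V (M - 1) := by
      have := hVs (hgF (p i)) hx
      exact hVmono (by omega) this
    have hx3 : g i • x ∈ V (M - 1) := by
      have := hVs (hgF i) hx
      exact hVmono (by omega) this
    have h1 : P (g (p i) • x) = g (p i) * P x := hPs (hgF _) hx1 (by omega)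
    have h2 : P (g i • g (p i) • x) = g (p i) * P (g i • x) := by
      rw [hcx]
      exact hPs (hgF _) hx3 (by omega)
    simp only [Gd, mem_ofPred_eq, hx1, hx2, not_true_eq_false, false_or, h1, h2, hA1]
    cases A (p i) (P x) <;> cases A (p i) (P (g i • x)) <;> simp
  have hWin : ∀ i, Win (g i) (Gd i) R := by
    intro i x
    by_contra hcon
    push Not at hcon
    have hM2 := hLM i
    obtain ⟨n, hn0, hnR, hn⟩ := hG4 i (P x)
    have h1 : ∀ m : ℤ, 0 ≤ m → m < R → g i ^ m • x ∈ V (M - 1) := by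
      intro m hm hm'
      by_contra h
      exact hcon m hm hm' (Or.inl h)
    have h2 : ∀ m : ℕ, (m : ℤ) ≤ R → P (g i ^ m • x) = g i ^ m * P x := by
      intro m
      induction m with
      | zero => intro _; simp
      | succ m ih =>
        intro hm
        push_cast at hm
        have h3 := h1 m (by positivity) (by omega)
        rw [zpow_natCast] at h3
        rw [pow_succ', mul_smul, mul_assoc, ← ih (by omega)]
        exact hPs (hgF _) h3 (by omega)
    refine hcon n hn0 hnR (Or.inr ?_)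
    obtain ⟨n', rfl⟩ := Int.eq_ofNat_of_zero_le hn0
    rw [zpow_natCast] at hn ⊢
    have e : g i • g i ^ n' • x = g i ^ (n' + 1) • x := by rw [← mul_smul, pow_succ']
    rw [e, h2 n' (by omega), h2 (n' + 1) (by push_cast; omega), hn]
    congr 2
    rw [← zpow_natCast]
    push_cast
    rfl
  have hJsub : ∀ i, J i ⊆ V (L i + 1 + D) := by
    intro i x hx
    obtain ⟨m, h1, h2, h3⟩ := JJ_near hR hx
    have h4 := zpow_zone hFinv (hgF i) (hWsub i h3) (-m)
    rw [← mul_smul, ← zpow_add, neg_add_cancel, zpow_zero, one_smul] at h4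
    exact zone_mono hF1 U (by omega) h4
  have hVJ : ∀ i, V (L i) ⊆ J i := fun i x hx => subset_JJ (hVW i hx)
  have hJpair : ∀ i (x : X), x ∈ V (M - D - 2) → z i (P x) = false →
      (g (p i) • x ∈ J i ↔ x ∈ J i) := by
    intro i x hx hz
    have hM2 := hLM i
    refine JJ_congr hR (fun m h1 h2 => ?_) (fun m h1 h2 => ?_)
    · rw [hcz]
      have h3 : g i ^ m • x ∈ V (M - D - 2 + m.natAbs) := zpow_zone hFinv (hgF i) hx m
      refine hWpair i _ (hVmono (by omega) h3) ?_
      rw [hPz i x _ m hx (by omega), hzz, hz]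
    · rw [hcz]
      have h3 : g i ^ m • x ∈ V (M - D - 2 + m.natAbs) := zpow_zone hFinv (hgF i) hx m
      exact hGpair i _ (hVmono (by omega) h3)
  -- the phases
  let θ : X → I → Bool := fun x i => if x ∈ J i then A i (P x) else B i (O x)
  have hθ1 : ∀ i x, x ∈ J i → θ x i = A i (P x) := fun i x h => if_pos h
  have hθ2 : ∀ i x, x ∉ J i → θ x i = B i (O x) := fun i x h => if_neg h
  have hUJ : ∀ i x, x ∉ J i → x ∉ U := by
    intro i x hx hU
    rw [← hV0] at hU
    exact hx (hVJ i (hVmono (by omega) hU))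
  have hθpair : ∀ i (x : X), x ∈ V (M - D - 2) → z i (P x) = false →
      θ (g (p i) • x) i = θ x i := by
    intro i x hx hz
    have hM2 := hLM i
    have h1 := hJpair i x hx hz
    by_cases h : x ∈ J i
    · rw [hθ1 i x h, hθ1 i _ (h1.2 h), hPs (hgF _) hx (by omega), hA2 i _ hz]
    · have h' : g (p i) • x ∉ J i := fun h2 => h (h1.1 h2)
      rw [hθ2 i x h, hθ2 i _ h', hO x (hUJ i x h) _ (hgF _) (hUJ i _ h'), hB2]
  have hθstep : ∀ i (x : X), (x ∈ J i ↔ g i • x ∈ J i) → θ (g i • x) i = !(θ x i) := by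
    intro i x h
    have hM2 := hLM i
    by_cases h1 : x ∈ J i
    · rw [hθ1 i x h1, hθ1 i _ (h.1 h1), hPs (hgF _) (hJsub i h1) (by omega), hA1]
    · have h2 : g i • x ∉ J i := fun h2 => h1 (h.2 h2)
      rw [hθ2 i x h1, hθ2 i _ h2, hO x (hUJ i x h1) _ (hgF _) (hUJ i _ h2), hB1]
  -- the corners
  let C : I → Set X := fun i => {x | ¬ (x ∈ J i ↔ g i • x ∈ J i) ∧ θ (g i • x) i = θ x i ∧
    z i (P x) = false}
  -- a transition
  have htr : ∀ i (x : X), ¬ (x ∈ J i ↔ g i • x ∈ J i) → x ∈ Gd i ∧ x ∉ W i ∧ g i • x ∉ W i ∧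
      x ∈ V (L i + D + 2) ∧ g i • x ∈ V (L i + D + 2) := by
    intro i x h
    obtain ⟨h1, h2, h3⟩ := JJ_good hR (hWin i) h
    refine ⟨h1, h2, h3, ?_⟩
    by_cases h4 : x ∈ J i
    · have h5 := hJsub i h4
      exact ⟨hVmono (by omega) h5, hVmono (by omega) (hVs (hgF i) h5)⟩
    · have h5 : g i • x ∈ J i := by
        by_contra h5
        exact h (iff_of_false h4 h5)
      have h6 := hJsub i h5
      exact ⟨hVmono (by omega) (hVs' (hgF i) h6), hVmono (by omega) h6⟩
  have hzP : ∀ i (x : X), x ∈ V (M - 1) → z i (P (g i • x)) = z i (P x) := by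
    intro i x hx
    have hM2 := hLM i
    rw [hPs (hgF _) hx (by omega), hz1]
  have hzP' : ∀ i (x : X), x ∈ V (M - 1) → z i (P (g (p i) • x)) = !(z i (P x)) := by
    intro i x hx
    have hM2 := hLM i
    rw [hPs (hgF _) hx (by omega), hz2]
  -- `x` is a corner or the partner of a corner
  have hmis : ∀ i (x : X), ¬ (x ∈ J i ↔ g i • x ∈ J i) → θ (g i • x) i = θ x i →
      ∃ e₂, cor g p i false e₂ x ∈ C i := by
    intro i x h h'
    have hM2 := hLM i
    obtain ⟨-, t2, t3, t4, t5⟩ := htr i x h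
    cases hz : z i (P x) with
    | false => exact ⟨false, h, h', hz⟩
    | true =>
      refine ⟨true, ?_⟩
      have hy0 : (g (p i))⁻¹ • x ∈ V (L i + D + 3) := hVs (hFinv _ (hgF _)) t4
      have hcy : cor g p i false true x = (g (p i))⁻¹ • x := by simp [cor, bk]
      rw [hcy]
      set y : X := (g (p i))⁻¹ • x with hy
      have hxy : x = g (p i) • y := by rw [hy, smul_inv_smul]
      have hy1 : y ∈ V (M - D - 2) := hVmono (by omega) hy0
      have hy2 : y ∈ V (M - 1) := hVmono (by omega) hy0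
      have hzy : z i (P y) = false := by
        have := hzP' i y hy2
        rw [← hxy, hz] at this
        cases h3 : z i (P y) with
        | false => rfl
        | true => rw [h3] at this; exact absurd this (by simp)
      have hgy1 : g i • y ∈ V (M - D - 2) := hVmono (by omega) (hVs (hgF i) hy0)
      have hzgy : z i (P (g i • y)) = false := by rw [hzP i y hy2, hzy]
      have j1 := hJpair i y hy1 hzy
      have j2 := hJpair i (g i • y) hgy1 hzgy
      have k1 := hθpair i y hy1 hzy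
      have k2 := hθpair i (g i • y) hgy1 hzgy
      rw [hxy, hcx] at h h'
      rw [j1, j2] at h
      rw [k1, k2] at h'
      exact ⟨h, h', hzy⟩
  -- the four points of a block
  have hpts : ∀ i, ∀ y ∈ C i, ∀ e₁ e₂ (x : X), cor g p i e₁ e₂ x = y →
      x ∈ V (L i + D + 3) ∧ x ∉ V (L i) ∧ z i (P x) = e₂ := by
    intro i y hy e₁ e₂ x hxy
    have hM2 := hLM i
    obtain ⟨t1, t2, t3, t4, t5⟩ := htr i y hy.1
    have hy1 : y ∈ V (M - 1) := hVmono (by omega) t4
    have hgy1 : g i • y ∈ V (M - 1) := hVmono (by omega) t5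
    have hzgy : z i (P (g i • y)) = false := by rw [hzP i y hy1]; exact hy.2.2
    have w1 : g (p i) • y ∉ W i := fun h => t2 ((hWpair i y hy1 hy.2.2).1 h)
    have w2 : g (p i) • g i • y ∉ W i := fun h => t3 ((hWpair i _ hgy1 hzgy).1 h)
    cases e₁ <;> cases e₂ <;> simp only [cor, bk, if_true, if_false, Bool.false_eq_true] at hxy
    · subst hxy
      exact ⟨hVmono (by omega) t4, fun h => t2 (hVW i h), hy.2.2⟩
    · have hx : x = g (p i) • y := by rw [← hxy, smul_inv_smul]
      subst hx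
      refine ⟨hVmono (by omega) (hVs (hgF _) t4), fun h => w1 (hVW i h), ?_⟩
      rw [hzP' i y hy1, hy.2.2]
      rfl
    · have hx : x = g i • y := by rw [← hxy, smul_inv_smul]
      subst hx
      exact ⟨hVmono (by omega) t5, fun h => t3 (hVW i h), hzgy⟩
    · have hx : x = g (p i) • g i • y := by
        rw [← hxy, smul_inv_smul, smul_inv_smul]
      subst hx
      refine ⟨hVmono (by omega) (hVs (hgF _) t5), fun h => w2 (hVW i h), ?_⟩
      rw [hzP' i _ hgy1, hzgy]
      rfl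
  have hJm : ∀ i, MeasurableSet (J i) := by
    intro i
    refine measurable_JJ hmeas ?_ ?_ R
    · refine (hVmeas _).union (((hPm.set {γ | z i γ = false}).inter (hmeas _ (hVmeas _))).union
        ((hPm.set {γ | z i γ = true}).inter (hmeas _ (hVmeas _))))
    · refine (hVmeas _).compl.union ?_
      have h1 := (FM.pair (hPm.comp (A (p i))) ((hPm.comp_meas (hmeas (g i))).comp (A (p i)))).set
        {q | q.1 = q.2}
      exact h1
  have hPθ : ∀ i, FM fun x => θ x i := by
    intro i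
    exact FM.ite (P := fun x => x ∈ J i) (hJm i) (hPm.comp (A i)) (hOm.comp (B i))
  have hCm : ∀ i, MeasurableSet (C i) := by
    intro i
    have h1 : MeasurableSet {x : X | ¬ (x ∈ J i ↔ g i • x ∈ J i)} := by
      have e : {x : X | ¬ (x ∈ J i ↔ g i • x ∈ J i)} =
          (J i \ {x | g i • x ∈ J i}) ∪ ({x | g i • x ∈ J i} \ J i) := by
        ext x
        simp only [mem_ofPred_eq, mem_union, mem_sdiff]
        tauto
      rw [e]
      exact ((hJm i).diff (hmeas _ (hJm i))).union ((hmeas _ (hJm i) : MeasurableSet _).diff (hJm i))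
    have h2 : MeasurableSet {x : X | θ (g i • x) i = θ x i} := by
      have h3 := (FM.pair ((hPθ i).comp_meas (hmeas (g i))) (hPθ i)).set {q | q.1 = q.2}
      exact h3
    exact h1.inter (h2.inter (hPm.set {γ | z i γ = false}))
  refine BC_of_blocks g hgi hne p hp hcom hmeas T hT θ hPθ C hCm ?_ ?_ ?_ ?_
  · -- the blocks are disjoint
    intro x i e₁ e₂ j f₁ f₂ h1 h2
    obtain ⟨a1, a2, a3⟩ := hpts i _ h1 e₁ e₂ x rfl
    obtain ⟨b1, b2, b3⟩ := hpts j _ h2 f₁ f₂ x rfl
    have hij : i = j := by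
      rcases lt_trichotomy (rk i) (rk j) with h | h | h
      · exact absurd (hVmono (by have := hLL i j h; omega) a1) b2
      · exact hrk h
      · exact absurd (hVmono (by have := hLL j i h; omega) b1) a2
    subst hij
    have he2 : e₂ = f₂ := a3.symm.trans b3
    subst he2
    by_cases he1 : e₁ = f₁
    · subst he1; rfl
    · exfalso
      have key : ∀ y : X, (g i)⁻¹ • y ∈ C i → y ∈ C i → False := by
        intro y h3 h4
        have h5 := JJ_two hR (hWin i) h3.1
        rw [smul_inv_smul] at h5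
        exact h4.1 h5
      cases e₁ <;> cases f₁
      · exact he1 rfl
      · exact key _ h2 h1
      · exact key _ h1 h2
      · exact he1 rfl
  · -- consistent or in a block
    intro j x
    by_cases h : x ∈ J j ↔ g j • x ∈ J j
    · exact Or.inl (hθstep j x h)
    · by_cases h' : θ (g j • x) j = θ x j
      · exact Or.inr (hmis j x h h')
      · left
        revert h'
        cases θ (g j • x) j <;> cases θ x j <;> simp
  · -- the rails
    intro i y hy
    have hM2 := hLM i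
    obtain ⟨t1, t2, t3, t4, t5⟩ := htr i y hy.1
    have hy1 : y ∈ V (M - D - 2) := hVmono (by omega) t4
    have hgy1 : g i • y ∈ V (M - D - 2) := hVmono (by omega) t5
    have hzgy : z i (P (g i • y)) = false := by
      rw [hzP i y (hVmono (by omega) t4)]; exact hy.2.2
    exact ⟨(hθpair i y hy1 hy.2.2).symm, (hθpair i _ hgy1 hzgy).symm⟩
  · -- the helper edges
    intro i y hy
    have hM2 := hLM i
    obtain ⟨t1, t2, t3, t4, t5⟩ := htr i y hy.1
    rcases lt_trichotomy (rk i) (rk (p i)) with h | h | h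
    · have hll := hLL i (p i) h
      have j1 : y ∈ J (p i) := hVJ (p i) (hVmono (by omega) t4)
      have j2 : g i • y ∈ J (p i) := hVJ (p i) (hVmono (by omega) t5)
      rw [hθ1 _ _ j1, hθ1 _ _ j2]
      rcases t1 with t1 | t1
      · exact absurd (hVmono (by omega) t4) t1
      · exact t1
    · exact absurd (hrk h).symm (hp i)
    · have hll := hLL (p i) i h
      have hpp := hrkp i h
      have j1 : y ∉ J (p i) := fun hj => t2 (hVW i (hVmono (by omega) (hJsub _ hj)))
      have j2 : g i • y ∉ J (p i) := fun hj => t3 (hVW i (hVmono (by omega) (hJsub _ hj)))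
      rw [hθ2 _ _ j1, hθ2 _ _ j2, hO y (hUJ _ _ j1) _ (hgF i) (hUJ _ _ j2)]
      have h5 := hB2 (p i) (O y)
      rw [hpp] at h5
      exact h5.symm

end Pool.Agent.MP1822C
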