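import Pool.Agent.Lib.MP_1822da_lc.VC
import Pool.Agent.Lib.MP_1822da_lc.CP.Main

/-!
# Commuting partners and finite partners together
-/

namespace Pool.Agent.MP1822C

open Set MeasureTheory
open Pool.Agent.Lib.MP_1822da_lc Pool.Agent.MP1822T

universe u v

variable {Γ : Type u} [Group Γ]

lemma countable_of_gen {S : Finset Γ} (hsymm : ∀ g ∈ S, g⁻¹ ∈ S)
    (hgen : Subgroup.closure (S : Set Γ) = ⊤) : Countable Γ := by
  have hsur : Function.Surjective fun l : List S => (l.map fun s : S => (s : Γ)).prod := by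
    intro γ
    have hγ : γ ∈ Subgroup.closure (S : Set Γ) := by rw [hgen]; trivial
    induction hγ using Subgroup.closure_induction with
    | mem γ hγ => exact ⟨[⟨γ, hγ⟩], by simp⟩
    | one => exact ⟨[], by simp⟩
    | mul γ δ _ _ ih1 ih2 =>
      obtain ⟨l1, rfl⟩ := ih1
      obtain ⟨l2, rfl⟩ := ih2
      exact ⟨l1 ++ l2, by simp⟩
    | inv γ _ ih =>
      obtain ⟨l, rfl⟩ := ih
      refine ⟨(l.map fun s : S => (⟨(s : Γ)⁻¹, hsymm _ s.2⟩ : S)).reverse, ?_⟩
      simp only [List.map_reverse, List.map_map, List.prod_inv_reverse]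
      rfl
  exact hsur.countable

/-- the partner relation -/
def Prt (g h : Γ) : Prop :=
  ¬ IsOfFinOrder g ∧ ¬ IsOfFinOrder h ∧ g * h = h * g ∧
    Subgroup.zpowers g ⊓ Subgroup.zpowers h = ⊥

lemma Prt.symm {g h : Γ} (H : Prt g h) : Prt h g :=
  ⟨H.2.1, H.1, H.2.2.1.symm, by rw [inf_comm]; exact H.2.2.2⟩

lemma Prt.inv_left {g h : Γ} (H : Prt g h) : Prt g⁻¹ h := by
  refine ⟨fun h' => H.1 (isOfFinOrder_inv_iff.1 h'), H.2.1, ?_, ?_⟩
  · exact ((show Commute g h from H.2.2.1).inv_left).eq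
  · rw [Subgroup.zpowers_inv]; exact H.2.2.2

lemma Prt.inv_right {g h : Γ} (H : Prt g h) : Prt g h⁻¹ := H.symm.inv_left.symm

lemma Prt.irrefl {g : Γ} : ¬ Prt g g := by
  intro H
  have h1 := H.2.2.2
  rw [inf_idem, Subgroup.zpowers_eq_bot] at h1
  exact H.1 (h1 ▸ IsOfFinOrder.one)

lemma Prt.indep {g h : Γ} (H : Prt g h) (a b : ℤ) (hab : g ^ a = h ^ b) : a = 0 ∧ b = 0 := by
  have h1 : g ^ a ∈ Subgroup.zpowers g ⊓ Subgroup.zpowers h :=
    ⟨Subgroup.mem_zpowers_iff.2 ⟨a, rfl⟩, Subgroup.mem_zpowers_iff.2 ⟨b, hab.symm⟩⟩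
  rw [H.2.2.2, Subgroup.mem_bot] at h1
  have h2 : h ^ b = 1 := by rw [← hab, h1]
  constructor
  · by_contra ha
    exact H.1 (isOfFinOrder_iff_zpow_eq_one.2 ⟨a, ha, h1⟩)
  · by_contra hb
    exact H.2.1 (isOfFinOrder_iff_zpow_eq_one.2 ⟨b, hb, h2⟩)

variable {X : Type v} [MeasurableSpace X] [StandardBorelSpace X] [MulAction Γ X]

/-- **Both kinds of partners.** -/
theorem BC_partners {S : Finset Γ} (hsymm : ∀ g ∈ S, g⁻¹ ∈ S) (h1 : (1 : Γ) ∉ S)
    (hgen : Subgroup.closure (S : Set Γ) = ⊤) (hodd : ∀ g ∈ S, ¬ Odd (orderOf g))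
    (hmeas : ∀ γ : Γ, Measurable fun x : X => γ • x)
    (hfree : ∀ (γ : Γ) (x : X), γ • x = x → γ = 1) (hasi : BorelAsiLe (schreierGraph S X) 1)
    (hL : ∀ g ∈ S, ¬ IsOfFinOrder g → (∃ h ∈ S, Prt g h) ∨
      ∃ K : Subgroup Γ, Finite K ∧ MP1822V.Twist g K ∧ ∃ s ∈ S, s ∈ K) : BC X S := by
  classical
  have hcount := countable_of_gen hsymm hgen
  obtain ⟨r, hr, hr'⟩ := exists_rep Γ
  set T : Finset Γ := S.filter fun g => ∃ h ∈ S, Prt g h with hT
  have hTmem : ∀ g, g ∈ T ↔ g ∈ S ∧ ∃ h ∈ S, Prt g h := fun g => by simp [hT]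
  have hTsymm : ∀ g ∈ T, g⁻¹ ∈ T := by
    intro g hg
    obtain ⟨hgS, h, hh, hP⟩ := (hTmem g).1 hg
    exact (hTmem _).2 ⟨hsymm g hgS, h, hh, hP.inv_left⟩
  -- the commuting part
  have hBT : BC X T := by
    let I := {g : Γ // g ∈ T ∧ r g = g}
    have hIfin : Finite I := Finite.of_injective (fun i : I => (⟨i.1, i.2.1⟩ : T))
      (fun i j hij => Subtype.ext (congrArg (fun t : T => (t : Γ)) hij))
    have hrr : ∀ γ, r (r γ) = r γ := by
      intro γ
      rcases hr γ with h | h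
      · rw [h, h]
      · rw [h, hr', h]
    have hrT : ∀ γ ∈ T, r γ ∈ T := by
      intro γ hγ
      rcases hr γ with h | h
      · rwa [h]
      · rw [h]; exact hTsymm γ hγ
    obtain ⟨p, hp1, hp2⟩ := exists_helper (fun i j : I => Prt i.1 j.1)
      (fun i j H => H.symm) (fun i => Prt.irrefl) (by
        rintro ⟨g, hg, hgr⟩
        obtain ⟨hgS, h, hh, hP⟩ := (hTmem g).1 hg
        have hhT : h ∈ T := (hTmem h).2 ⟨hh, g, hgS, hP.symm⟩
        refine ⟨⟨r h, hrT h hhT, hrr h⟩, ?_⟩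
        rcases hr h with h' | h'
        · simp only [h']; exact hP
        · simp only [h']; exact hP.inv_right)
    refine BC_commuting hmeas hfree hsymm h1 hasi (fun i : I => i.1)
      (fun i => ((hTmem _).1 i.2.1).1) Subtype.val_injective ?_ p ?_ hp2
      (fun i => (hp1 i).2.2.1) (fun i => (hp1 i).indep) T ?_
    · intro i j hij
      have h2 : r i.1 = r j.1 := by rw [hij, hr']
      rw [i.2.2, j.2.2] at h2
      rw [← h2] at hij
      have hgo := (hp1 i).1
      apply hgo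
      rw [isOfFinOrder_iff_pow_eq_one]
      refine ⟨2, by norm_num, ?_⟩
      rw [pow_two]
      nth_rewrite 1 [hij]
      exact inv_mul_cancel _
    · intro i h
      have := hp1 i
      rw [h] at this
      exact Prt.irrefl this
    · intro γ
      constructor
      · intro hγ
        refine ⟨⟨r γ, hrT γ hγ, hrr γ⟩, ?_⟩
        rcases hr γ with h | h
        · left; exact h.symm
        · right; simp only [h, inv_inv]
      · rintro ⟨i, h | h⟩
        · rw [h]; exact i.2.1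
        · rw [h]; exact hTsymm _ i.2.1
  -- the rest
  have hBS : BC X (S \ T) := by
    refine MP1822V.upper_bound hsymm hgen ?_ ?_ hmeas hfree hasi ?_
    · intro g hg
      rw [Finset.mem_sdiff] at hg ⊢
      refine ⟨hsymm g hg.1, fun h => hg.2 ?_⟩
      have := hTsymm _ h
      rwa [inv_inv] at this
    · intro g hg
      exact hodd g (Finset.mem_sdiff.1 hg).1
    · intro g hg hgo
      rw [Finset.mem_sdiff] at hg
      rcases hL g hg.1 hgo with ⟨h, hh, hP⟩ | ⟨K, hK, hK', s, hs, hsK⟩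
      · exact absurd ((hTmem g).2 ⟨hg.1, h, hh, hP⟩) hg.2
      · refine ⟨K, hK, hK', s, ?_, hsK⟩
        rw [Finset.mem_sdiff]
        refine ⟨hs, fun hsT => ?_⟩
        obtain ⟨-, h, -, hP⟩ := (hTmem s).1 hsT
        apply hP.1
        have h2 : IsOfFinOrder (⟨s, hsK⟩ : K) := isOfFinOrder_of_finite _
        exact Submonoid.isOfFinOrder_coe.2 h2
  have h3 := BC_union hBT hBS Finset.disjoint_sdiff hTsymm
  rwa [Finset.union_sdiff_of_subset (Finset.filter_subset _ _)] at h3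

end Pool.Agent.MP1822C
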