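import Mathlib

/-!
# Commuting partners: helpers, ranks and the correction by Hall's theorem (L1, L2 and the heart of
L3 of BEC_C.md)
-/

namespace Pool.Agent.MP1822C

open Finset Function

/-- L1: helpers -/
theorem exists_helper {I : Type*} [Finite I] (r : I → I → Prop) (hs : ∀ i j, r i j → r j i)
    (hirr : ∀ i, ¬ r i i) (hne : ∀ i, ∃ j, r i j) :
    ∃ p : I → I, (∀ i, r i (p i)) ∧ ∀ i, p (p (p i)) = p i := by
  classical
  have := Fintype.ofFinite I
  choose p0 hp0 using hne
  obtain ⟨p, hp, hmax⟩ := Finset.exists_max_image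
    (Finset.univ.filter fun p : I → I => ∀ i, r i (p i))
    (fun p => (Finset.univ.filter fun i => p (p i) = i).card) ⟨p0, by simpa using hp0⟩
  simp only [Finset.mem_filter, Finset.mem_univ, true_and] at hp hmax
  refine ⟨p, hp, ?_⟩
  intro c
  by_contra hc
  set k := p c with hk
  have hck : c ≠ k := fun h => hirr c (by have := hp c; rwa [← hk, ← h] at this)
  let p' : I → I := Function.update p k c
  have h1 : ∀ i, i ≠ k → p' i = p i := fun i hi => Function.update_of_ne hi _ _
  have h2 : p' k = c := Function.update_self _ _ _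
  have h3 : ∀ i, r i (p' i) := by
    intro i
    by_cases hi : i = k
    · rw [hi, h2]
      exact hs _ _ (hp c)
    · rw [h1 i hi]; exact hp i
  have h4 := hmax p' h3
  have h5 : (Finset.univ.filter fun i => p (p i) = i) ⊂
      (Finset.univ.filter fun i => p' (p' i) = i) := by
    rw [Finset.ssubset_iff_of_subset]
    · refine ⟨k, ?_, ?_⟩
      · simp only [Finset.mem_filter, Finset.mem_univ, true_and]
        rw [h2, h1 c hck]
      · simp only [Finset.mem_filter, Finset.mem_univ, true_and]
        exact hc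
    · intro i hi
      simp only [Finset.mem_filter, Finset.mem_univ, true_and] at hi ⊢
      have hik : i ≠ k := by
        rintro rfl
        exact hc hi
      rw [h1 i hik]
      have hpik : p i ≠ k := by
        intro h6
        rw [h6] at hi
        apply hc
        rw [hi, h6]
      rw [h1 _ hpik]
      exact hi
  exact absurd h4 (not_le.2 (Finset.card_lt_card h5))

/-- L2: ranks -/
theorem exists_rank {I : Type*} [Finite I] (p : I → I) (hp : ∀ i, p (p (p i)) = p i) :
    ∃ (rk : I → ℕ) (N : ℕ), Function.Injective rk ∧ (∀ i, rk i < N) ∧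
      ∀ i, rk (p i) < rk i → p (p i) = i := by
  classical
  have := Fintype.ofFinite I
  let e := Fintype.equivFin I
  refine ⟨fun i => if p (p i) = i then Fintype.card I + e i else e i, 2 * Fintype.card I,
    ?_, ?_, ?_⟩
  · intro i j h
    have hi := (e i).2
    have hj := (e j).2
    simp only at h
    have : (e i : ℕ) = e j := by
      split_ifs at h <;> omega
    exact e.injective (Fin.ext this)
  · intro i
    have hi := (e i).2
    simp only
    split_ifs <;> omega
  · intro i h
    by_contra hc
    simp only [if_neg hc, hp, if_true] at h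
    have hi := (e i).2
    omega

/-- The correction. -/
theorem exists_r {J Q K : Type*} [Fintype J] (σ : J → Q → Q) (hσ : ∀ j, Injective (σ j))
    (pos : J → Q → ℤ) (hpos : ∀ j x, pos j (σ j x) = pos j x + 1) (cl : Q → K) (τ : Q → Bool)
    (hinj : ∀ x y, cl x = cl y → τ x = τ y → x = y) (δ : J → Q → Bool) :
    ∃ r : K → Bool, ∀ j x, ∃ n < 16 * (Fintype.card J + 1),
      xor (r (cl ((σ j)^[n] x))) (r (cl ((σ j)^[n + 1] x))) = δ j ((σ j)^[n] x) := by
  classical
  set m := Fintype.card J with hm
  set R' : ℕ := 8 * (m + 1) with hR'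
  have hR0 : (0 : ℤ) < R' := by rw [hR']; positivity
  have hpi : ∀ j n x, pos j ((σ j)^[n] x) = pos j x + n := by
    intro j n
    induction n with
    | zero => intro x; simp
    | succ n ih =>
      intro x
      rw [Function.iterate_succ_apply, ih, hpos]
      push_cast
      ring
  let Blk : Type _ := {b : J × Q // pos b.1 b.2 % R' = 0}
  let t : Blk → Finset K := fun b => (range R').image fun n => cl ((σ b.1.1)^[n] b.1.2)
  have hmt : ∀ (b : Blk) v, v ∈ t b ↔ ∃ n < R', cl ((σ b.1.1)^[n] b.1.2) = v := by
    intro b v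
    simp [t]
  -- large blocks
  have hcard : ∀ b : Blk, 4 * (m + 1) ≤ (t b).card := by
    intro b
    have h1 := Finset.card_le_mul_card_image (s := range R')
      (f := fun n => cl ((σ b.1.1)^[n] b.1.2)) 2 (by
        intro v _
        have h2 : (Finset.univ : Finset Bool).card = 2 := by simp
        rw [← h2]
        refine Finset.card_le_card_of_injOn (fun n => τ ((σ b.1.1)^[n] b.1.2))
          (fun _ _ => Finset.mem_univ _) ?_
        intro n hn n' hn' h3
        simp only [Finset.coe_filter, Finset.mem_range, Set.mem_ofPred_eq] at hn hn'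
        have h4 := hinj _ _ (hn.2.trans hn'.2.symm) h3
        have h5 := congrArg (pos b.1.1) h4
        rw [hpi, hpi] at h5
        have h6 : (n : ℤ) = n' := by linarith
        exact_mod_cast h6)
    rw [Finset.card_range] at h1
    have h2 : (t b).card = (Finset.image (fun n => cl ((σ b.1.1)^[n] b.1.2)) (range R')).card := rfl
    omega
  -- small degrees
  have hdeg : ∀ (B : Finset Blk) v, (B.filter fun b => v ∈ t b).card ≤ 2 * m := by
    intro B v
    have hch : ∀ b : Blk, ∃ n, v ∈ t b → n < R' ∧ cl ((σ b.1.1)^[n] b.1.2) = v := by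
      intro b
      by_cases h : v ∈ t b
      · obtain ⟨n, h1, h2⟩ := (hmt b v).1 h
        exact ⟨n, fun _ => ⟨h1, h2⟩⟩
      · exact ⟨0, fun h' => absurd h' h⟩
    choose nb hnb using hch
    have h2 : (Finset.univ : Finset (J × Bool)).card = 2 * m := by
      rw [Finset.card_univ, Fintype.card_prod, Fintype.card_bool, hm]
      ring
    rw [← h2]
    refine Finset.card_le_card_of_injOn (fun b => (b.1.1, τ ((σ b.1.1)^[nb b] b.1.2)))
      (fun _ _ => Finset.mem_univ _) ?_
    rintro ⟨⟨j, x⟩, hx⟩ hb ⟨⟨j', x'⟩, hx'⟩ hb' h3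
    simp only [Finset.coe_filter, Set.mem_ofPred_eq] at hb hb'
    obtain ⟨n1, n2⟩ := hnb _ hb.2
    obtain ⟨n1', n2'⟩ := hnb _ hb'.2
    simp only [Prod.mk.injEq] at h3
    obtain ⟨rfl, h3⟩ := h3
    generalize nb ⟨(j, x), hx⟩ = n at *
    generalize nb ⟨(j, x'), hx'⟩ = n' at *
    simp only at n2 n2' h3 hx hx'
    have h4 := hinj _ _ (n2.trans n2'.symm) h3
    have h5 := congrArg (pos j) h4
    rw [hpi, hpi] at h5
    have h6 : n = n' := by
      have h7 : (n : ℤ) % R' = (n' : ℤ) % R' := by
        have e1 : (pos j x + n) % R' = (n : ℤ) % R' := by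
          rw [Int.add_emod, hx, zero_add, Int.emod_emod_of_dvd _ dvd_rfl]
        have e2 : (pos j x' + n') % R' = (n' : ℤ) % R' := by
          rw [Int.add_emod, hx', zero_add, Int.emod_emod_of_dvd _ dvd_rfl]
        rw [← e1, ← e2, h5]
      rw [Int.emod_eq_of_lt (by positivity) (by exact_mod_cast n1),
        Int.emod_eq_of_lt (by positivity) (by exact_mod_cast n1')] at h7
      exact_mod_cast h7
    subst h6
    have h7 := (hσ j).iterate n h4
    subst h7
    rfl
  -- Hall
  have hall : ∀ s : Finset (Blk × Bool), s.card ≤ (s.biUnion fun q => t q.1).card := by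
    intro s
    have h1 : s.card ≤ (s.image Prod.fst).card * 2 := by
      have h2 : s ⊆ (s.image Prod.fst) ×ˢ (Finset.univ : Finset Bool) := by
        intro q hq
        rw [Finset.mem_product]
        exact ⟨Finset.mem_image_of_mem _ hq, Finset.mem_univ _⟩
      have h3 := Finset.card_le_card h2
      rw [Finset.card_product, Finset.card_univ, Fintype.card_bool] at h3
      exact h3
    have h2 : (s.biUnion fun q => t q.1) = (s.image Prod.fst).biUnion t := by
      ext v
      simp only [Finset.mem_biUnion, Finset.mem_image]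
      constructor
      · rintro ⟨q, hq, hv⟩
        exact ⟨q.1, ⟨q, hq, rfl⟩, hv⟩
      · rintro ⟨b, ⟨q, hq, rfl⟩, hv⟩
        exact ⟨q, hq, hv⟩
    rw [h2]
    generalize s.image Prod.fst = B at *
    have h3 := Finset.card_mul_le_card_mul (s := B) (t := B.biUnion t) (fun b v => v ∈ t b)
      (m := 4 * (m + 1)) (n := 2 * m) (by
        intro b hb
        refine (hcard b).trans (Finset.card_le_card ?_)
        intro v hv
        rw [Finset.mem_bipartiteAbove]
        exact ⟨Finset.mem_biUnion.2 ⟨b, hb, hv⟩, hv⟩) (by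
        intro v _
        exact hdeg B v)
    nlinarith
  obtain ⟨f, hf1, hf2⟩ := (Finset.all_card_le_biUnion_card_iff_exists_injective
    (fun q : Blk × Bool => t q.1)).1 hall
  have hpn : ∀ q : Blk × Bool, ∃ n < R', cl ((σ q.1.1.1)^[n] q.1.1.2) = f q := fun q =>
    (hmt _ _).1 (hf2 q)
  choose pn hpn1 hpn2 using hpn
  let Sx : Blk → ℕ → Bool := fun b n =>
    Nat.rec false (fun n a => xor a (!(δ b.1.1 ((σ b.1.1)^[n] b.1.2)))) n
  let val : Blk → Bool := fun b => !(xor (Sx b (pn (b, false))) (Sx b (pn (b, true))))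
  let r : K → Bool := fun v => if h : ∃ b : Blk, f (b, true) = v then val h.choose else false
  have hr1 : ∀ b, r (f (b, true)) = val b := by
    intro b
    have h : ∃ b' : Blk, f (b', true) = f (b, true) := ⟨b, rfl⟩
    simp only [r]
    rw [dif_pos h]
    have := hf1 h.choose_spec
    rw [(Prod.mk.inj this).1]
  have hr2 : ∀ b, r (f (b, false)) = false := by
    intro b
    have h : ¬ ∃ b' : Blk, f (b', true) = f (b, false) := by
      rintro ⟨b', h⟩
      have := hf1 h
      simp at this
    simp only [r]
    rw [dif_neg h]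
  refine ⟨r, ?_⟩
  intro j x
  -- the next block
  obtain ⟨n0, hn0, hn0'⟩ : ∃ n0 : ℕ, n0 < R' ∧ (pos j x + n0) % R' = 0 := by
    refine ⟨((-pos j x) % R').toNat, ?_, ?_⟩
    · have h1 := Int.emod_lt_of_pos (-pos j x) hR0
      have h2 := Int.emod_nonneg (-pos j x) hR0.ne'
      omega
    · rw [Int.toNat_of_nonneg (Int.emod_nonneg _ hR0.ne'), Int.add_emod,
        Int.emod_emod_of_dvd _ dvd_rfl, ← Int.add_emod]
      simp
  set x' : Q := (σ j)^[n0] x with hx'
  have hb : pos j x' % R' = 0 := by rw [hx', hpi]; exact hn0'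
  let b : Blk := ⟨(j, x'), hb⟩
  by_contra hno
  push Not at hno
  have hbad : ∀ n < R', xor (r (cl ((σ j)^[n] x'))) (r (cl ((σ j)^[n + 1] x'))) ≠
      δ j ((σ j)^[n] x') := by
    intro n hn
    have h1 := hno (n + n0) (by omega)
    rw [Function.iterate_add_apply, ← hx'] at h1
    have e : n + n0 + 1 = n + 1 + n0 := by omega
    rw [e, Function.iterate_add_apply _ (n + 1), ← hx'] at h1
    exact h1
  have hconst : ∀ n ≤ R', xor (r (cl ((σ j)^[n] x'))) (Sx b n) = r (cl x') := by
    intro n
    induction n with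
    | zero => intro _; simp [Sx]
    | succ n ih =>
      intro hn
      have h1 := ih (by omega)
      have h2 := hbad n (by omega)
      have h3 : Sx b (n + 1) = xor (Sx b n) (!(δ j ((σ j)^[n] x'))) := rfl
      rw [h3, ← h1]
      revert h2
      cases r (cl ((σ j)^[n] x')) <;> cases r (cl ((σ j)^[n + 1] x')) <;>
        cases δ j ((σ j)^[n] x') <;> cases Sx b n <;> simp
  have h1 := hconst (pn (b, false)) (hpn1 (b, false)).le
  have h2 := hconst (pn (b, true)) (hpn1 (b, true)).le
  have h3 : cl ((σ j)^[pn (b, false)] x') = f (b, false) := hpn2 (b, false)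
  have h4 : cl ((σ j)^[pn (b, true)] x') = f (b, true) := hpn2 (b, true)
  rw [h3, hr2] at h1
  rw [h4, hr1] at h2
  have h5 : val b = !(xor (Sx b (pn (b, false))) (Sx b (pn (b, true)))) := rfl
  rw [h5] at h2
  rw [← h2] at h1
  revert h1
  cases Sx b (pn (b, false)) <;> cases Sx b (pn (b, true)) <;> simp

end Pool.Agent.MP1822C
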